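import Pool.Agent.Lib.MP_b8e197_co.H98.Stack

namespace H98Av

open List

/-- `e` lists the pairs (value, position) of `u` by decreasing value. -/
def Desc (e : List (ℕ × ℕ)) (u : List ℕ) (k : ℕ) : Prop :=
  e.Perm (u.zipIdx k) ∧ e.Pairwise (fun a b => b.1 < a.1)

theorem Desc.unique {e e' : List (ℕ × ℕ)} {u : List ℕ} {k : ℕ} (h : Desc e u k)
    (h' : Desc e' u k) : e = e' := by
  refine List.Perm.eq_of_pairwise (le := fun a b : ℕ × ℕ => b.1 < a.1) ?_ h.2 h'.2
    (h.1.trans h'.1.symm)
  intro a b _ _ h1 h2
  exact absurd (h1.trans h2) (lt_irrefl _)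

theorem Desc.mem {e : List (ℕ × ℕ)} {u : List ℕ} {k : ℕ} (h : Desc e u k) {p : ℕ × ℕ}
    (hp : p ∈ e) : p.1 ∈ u ∧ k ≤ p.2 ∧ p.2 < k + u.length := by
  have := h.1.mem_iff.mp hp
  exact ⟨fst_mem_of_mem_zipIdx this, le_snd_of_mem_zipIdx this, snd_lt_add_of_mem_zipIdx this⟩

theorem ForestList.desc {f : Forest} {u : List ℕ} (h : ForestList f u) (n : ℕ) :
    ∀ k, k + u.length ≤ n →
      ∃ e, Desc e u k ∧ TopList f (e.map (fun p => n - 1 - p.2)) := by
  induction h with
  | nil =>
    intro k _
    exact ⟨[], ⟨by simp, List.Pairwise.nil⟩, TopList.nil⟩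
  | @cons L R uL uR M hL hR h1 h2 h3 ihL ihR =>
    intro k hk
    simp only [length_append, length_cons] at hk
    obtain ⟨eL, dL, tL⟩ := ihL k (by omega)
    obtain ⟨eR, dR, tR⟩ := ihR (k + uL.length + 1) (by omega)
    refine ⟨(M, k + uL.length) :: (eL ++ eR), ⟨?_, ?_⟩, ?_⟩
    · rw [zipIdx_append, zipIdx_cons]
      refine (List.Perm.cons _ (dL.1.append dR.1)).trans ?_
      exact List.perm_middle.symm
    · rw [List.pairwise_cons, List.pairwise_append]
      refine ⟨?_, dL.2, dR.2, ?_⟩
      · intro p hp
        rw [List.mem_append] at hp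
        rcases hp with hp | hp
        · exact h1 _ (dL.mem hp).1
        · exact h3 _ (dR.mem hp).1
      · intro p hp q hq
        exact h2 _ (dL.mem hp).1 _ (dR.mem hq).1
    · rw [List.map_cons, List.map_append]
      refine TopList.cons tL tR ?_ ?_
      · intro x hx
        rw [List.mem_map] at hx
        obtain ⟨p, hp, rfl⟩ := hx
        have := dL.mem hp
        simp only
        omega
      · intro x hx
        rw [List.mem_map] at hx
        obtain ⟨p, hp, rfl⟩ := hx
        have := dR.mem hp
        simp only
        omega

/-- pairs (value, position) sorted by decreasing value -/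
def sortd (r : List ℕ) : List (ℕ × ℕ) :=
  (r.zipIdx 0).mergeSort (fun a b => decide (b.1 ≤ a.1))

theorem sortd_desc {r : List ℕ} (hr : r.Nodup) : Desc (sortd r) r 0 := by
  have hp : (sortd r).Perm (r.zipIdx 0) := List.mergeSort_perm _ _
  refine ⟨hp, ?_⟩
  have h1 : (sortd r).Pairwise (fun a b => decide (b.1 ≤ a.1) = true) := by
    apply List.pairwise_mergeSort
    · intro a b c hab hbc
      simp only [decide_eq_true_eq] at *
      omega
    · intro a b
      simp only [Bool.or_eq_true, decide_eq_true_eq]
      omega
  have h2 : (sortd r).Pairwise (fun a b => a.1 ≠ b.1) := by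
    have : ((sortd r).map Prod.fst).Nodup := by
      have e := hp.map Prod.fst
      rw [List.zipIdx_map_fst] at e
      exact e.nodup_iff.mpr hr
    rw [List.Nodup, List.pairwise_map] at this
    exact this
  refine (h1.and h2).imp ?_
  intro a b hab
  have := hab.1
  simp only [decide_eq_true_eq] at this
  have := hab.2
  omega

/-- The antitranspose. -/
def anti (n : ℕ) (r : List ℕ) : List ℕ := (sortd r).map (fun p => n - 1 - p.2)

theorem map_sub_range (n : ℕ) : ((List.range n).map (fun i => n - 1 - i)) = (List.range n).reverse := by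
  have := List.reverse_range' (s := 0) (n := n)
  rw [List.range_eq_range', this]
  simp [List.range_eq_range']

theorem anti_perm {n : ℕ} {r : List ℕ} (h : r.Perm (List.range n)) :
    (anti n r).Perm (List.range n) := by
  have hp : (sortd r).Perm (r.zipIdx 0) := List.mergeSort_perm _ _
  have h2 : ((sortd r).map Prod.snd).Perm (List.range n) := by
    refine (hp.map Prod.snd).trans ?_
    rw [List.zipIdx_map_snd, h.length_eq, List.length_range, List.range_eq_range']
  have h3 := h2.map (fun i => n - 1 - i)
  rw [List.map_map, map_sub_range] at h3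
  exact h3.trans (List.reverse_perm _)

theorem anti_filter {n l : ℕ} {r : List ℕ} {s : List Forest} (h : r.Perm (List.range n))
    (hl : l ≤ n) (hs : StackList s (r.take l)) :
    TopList (mk s) ((anti n r).filter (fun x => decide (n - l ≤ x))) := by
  have hnd : r.Nodup := h.nodup_iff.mpr List.nodup_range
  have hlen : r.length = n := by rw [h.length_eq, List.length_range]
  obtain ⟨e, de, te⟩ := hs.mk.desc n 0 (by rw [List.length_take]; omega)
  have dr := sortd_desc hnd
  have key : (sortd r).filter (fun p => decide (n - l ≤ n - 1 - p.2)) = e := by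
    refine Desc.unique (u := r.take l) (k := 0) ⟨?_, dr.2.filter _⟩ de
    refine (dr.1.filter _).trans ?_
    have h1 : r.zipIdx 0 = (r.take l).zipIdx 0 ++ (r.drop l).zipIdx (0 + (r.take l).length) := by
      rw [← zipIdx_append, List.take_append_drop]
    rw [h1, List.filter_append]
    rw [List.filter_eq_self.mpr, List.filter_eq_nil_iff.mpr, List.append_nil]
    · intro p hp
      have := le_snd_of_mem_zipIdx hp
      have := snd_lt_add_of_mem_zipIdx hp
      rw [List.length_take] at *
      rw [List.length_drop] at *
      simp only [decide_eq_true_eq, not_le]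
      omega
    · intro p hp
      have := snd_lt_add_of_mem_zipIdx hp
      rw [List.length_take] at *
      simp only [decide_eq_true_eq]
      omega
  rw [anti, List.filter_map]
  have h2 : List.filter ((fun x => decide (n - l ≤ x)) ∘ fun p : ℕ × ℕ => n - 1 - p.2) (sortd r)
      = e := key
  rw [h2]
  exact te

theorem anti_av {n : ℕ} {r : List ℕ} (h : r.Perm (List.range n)) (hav : Av1324 r) :
    Av1324 (anti n r) := by
  have hnd : r.Nodup := h.nodup_iff.mpr List.nodup_range
  have hlen : r.length = n := by rw [h.length_eq, List.length_range]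
  have dr := sortd_desc hnd
  intro a b c d hs hh
  rw [anti, List.sublist_map_iff] at hs
  obtain ⟨l', hl', he⟩ := hs
  match l', he with
  | [], he => simp at he
  | [p1], he => simp at he
  | [p1, p2], he => simp at he
  | [p1, p2, p3], he => simp at he
  | [p1, p2, p3, p4], he =>
    simp only [List.map_cons, List.map_nil, List.cons.injEq, and_true] at he
    obtain ⟨rfl, rfl, rfl, rfl⟩ := he
    have hpw := dr.2.sublist hl'
    simp only [List.pairwise_cons, List.mem_cons, List.not_mem_nil, or_false, forall_eq_or_imp,
      forall_eq, IsEmpty.forall_iff, implies_true, List.Pairwise.nil, and_true] at hpw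
    have m1 := dr.mem (hl'.subset (show p1 ∈ [p1, p2, p3, p4] by simp))
    have m2 := dr.mem (hl'.subset (show p2 ∈ [p1, p2, p3, p4] by simp))
    have m3 := dr.mem (hl'.subset (show p3 ∈ [p1, p2, p3, p4] by simp))
    have m4 := dr.mem (hl'.subset (show p4 ∈ [p1, p2, p3, p4] by simp))
    obtain ⟨⟨h12, h13, h14⟩, ⟨h23, h24⟩, h34⟩ := hpw
    rw [hlen] at *
    have o1 : p4.2 < p2.2 := by omega
    have o2 : p2.2 < p3.2 := by omega
    have o3 : p3.2 < p1.2 := by omega
    have hsub : List.Sublist [p4, p2, p3, p1] (r.zipIdx 0) := by
      have : Std.Antisymm (fun a b : ℕ × ℕ => a.2 < b.2) :=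
        ⟨fun a b h1 h2 => absurd (h1.trans h2) (lt_irrefl _)⟩
      refine sublist_of_subperm_of_pairwise (r := fun a b : ℕ × ℕ => a.2 < b.2) ?_ ?_ ?_
      · apply List.subperm_of_subset
        · simp only [List.nodup_cons, List.mem_cons, List.not_mem_nil, or_false, not_or,
            not_false_eq_true, List.nodup_nil, and_true]
          refine ⟨⟨?_, ?_, ?_⟩, ⟨?_, ?_⟩, ?_⟩ <;> (rintro rfl; omega)
        · intro p hp
          apply dr.1.mem_iff.mp
          apply hl'.subset
          simp only [List.mem_cons, List.not_mem_nil, or_false] at hp ⊢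
          tauto
      · simp only [List.pairwise_cons, List.mem_cons, List.not_mem_nil, or_false,
          forall_eq_or_imp, forall_eq, IsEmpty.forall_iff, implies_true, List.Pairwise.nil,
          and_true]
        omega
      · have h0 : ((r.zipIdx 0).map Prod.snd).Pairwise (· < ·) := by
          rw [List.zipIdx_map_snd]
          exact List.pairwise_lt_range'
        rw [List.pairwise_map] at h0
        exact h0
    have hsub2 := hsub.map Prod.fst
    rw [List.zipIdx_map_fst] at hsub2
    simp only [List.map_cons, List.map_nil] at hsub2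
    exact hav _ _ _ _ hsub2 ⟨h34, h23, h12⟩

theorem anti_inj {n : ℕ} {r r' : List ℕ} (h : r.Perm (List.range n))
    (h' : r'.Perm (List.range n)) (he : anti n r = anti n r') : r = r' := by
  have hnd : r.Nodup := h.nodup_iff.mpr List.nodup_range
  have hnd' : r'.Nodup := h'.nodup_iff.mpr List.nodup_range
  have hlen : r.length = n := by rw [h.length_eq, List.length_range]
  have hlen' : r'.length = n := by rw [h'.length_eq, List.length_range]
  have dr := sortd_desc hnd
  have dr' := sortd_desc hnd'
  have e1 : (sortd r).map Prod.fst = (sortd r').map Prod.fst := by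
    refine List.Perm.eq_of_pairwise (le := fun a b : ℕ => b < a) ?_ ?_ ?_ ?_
    · intro a b _ _ h1 h2
      exact absurd (h1.trans h2) (lt_irrefl _)
    · rw [List.pairwise_map]; exact dr.2
    · rw [List.pairwise_map]; exact dr'.2
    · have a1 := dr.1.map Prod.fst
      have a2 := dr'.1.map Prod.fst
      rw [List.zipIdx_map_fst] at a1 a2
      exact a1.trans (h.trans (h'.symm.trans a2.symm))
  have e2 : (sortd r).map Prod.snd = (sortd r').map Prod.snd := by
    have b1 : (sortd r).map Prod.snd = (anti n r).map (fun i => n - 1 - i) := by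
      rw [anti, List.map_map]
      apply List.map_congr_left
      intro p hp
      have := (dr.mem hp).2.2
      simp only [Function.comp]
      omega
    have b2 : (sortd r').map Prod.snd = (anti n r').map (fun i => n - 1 - i) := by
      rw [anti, List.map_map]
      apply List.map_congr_left
      intro p hp
      have := (dr'.mem hp).2.2
      simp only [Function.comp]
      omega
    rw [b1, b2, he]
  have e3 : sortd r = sortd r' := by
    have hl1 : (sortd r).length = (sortd r').length := by
      have := congrArg List.length e1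
      simpa using this
    apply List.ext_getElem hl1
    intro i h1 h2
    have g1 : ((sortd r).map Prod.fst)[i]'(by simpa using h1) =
        ((sortd r').map Prod.fst)[i]'(by simpa using h2) := by simp only [e1]
    have g2 : ((sortd r).map Prod.snd)[i]'(by simpa using h1) =
        ((sortd r').map Prod.snd)[i]'(by simpa using h2) := by simp only [e2]
    simp only [List.getElem_map] at g1 g2
    exact Prod.ext g1 g2
  have e4 : r.zipIdx 0 = r'.zipIdx 0 := by
    refine List.Perm.eq_of_pairwise (le := fun a b : ℕ × ℕ => a.2 < b.2) ?_ ?_ ?_ ?_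
    · intro a b _ _ h1 h2
      exact absurd (h1.trans h2) (lt_irrefl _)
    · have h0 : ((r.zipIdx 0).map Prod.snd).Pairwise (· < ·) := by
        rw [List.zipIdx_map_snd]
        exact List.pairwise_lt_range'
      rw [List.pairwise_map] at h0
      exact h0
    · have h0 : ((r'.zipIdx 0).map Prod.snd).Pairwise (· < ·) := by
        rw [List.zipIdx_map_snd]
        exact List.pairwise_lt_range'
      rw [List.pairwise_map] at h0
      exact h0
    · exact dr.1.symm.trans (e3 ▸ dr'.1)
  have := congrArg (List.map Prod.fst) e4
  rwa [List.zipIdx_map_fst, List.zipIdx_map_fst] at this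

end H98Av
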