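import Pool.Agent.Lib.MP_b8e197_co.H98.Pot

namespace H98Av

open Finset

/-- Parameters of a product functional. -/
structure Fn where
  x : ℝ
  y : ℝ
  t : ℝ
  v : ℝ
  μ : ℝ
  k : ℝ

/-- Parameters of the potential. -/
structure Prm where
  z : ℝ
  A : ℝ
  W0 : ℝ
  W2 : ℝ
  r : Fn
  h : Fn
  e : Fn
  κ : ℝ
  b : ℝ
  d : ℝ

/-- The functional. -/
noncomputable def Fn.ev (f : Fn) (s : List Forest) : ℝ := ps f.x f.y f.t s

/-- Basic relations of a functional. -/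
structure Fn.Ok (f : Fn) (p : Prm) : Prop where
  hx : f.x * f.v = p.W2 + f.v
  hy : f.y * f.v = p.W0 + f.v
  hμ : f.μ = p.z * p.A * f.x * f.t + p.z * f.y * f.v
  hk : f.k = p.z * f.y * f.v
  x1 : 1 ≤ f.x
  y1 : 1 ≤ f.y
  t1 : 1 ≤ f.t

/-- The conditions on the parameters. -/
structure Prm.Ok (p : Prm) : Prop where
  z0 : 0 ≤ p.z
  A1 : 1 ≤ p.A
  W01 : 1 ≤ p.W0
  W21 : 1 ≤ p.W2
  rO : p.r.Ok p
  hO : p.h.Ok p
  eO : p.e.Ok p
  rh : p.z * p.A * p.r.t * p.r.x * p.r.x + p.z * p.r.y * (p.W0 + p.r.v) ≤ p.r.μ * (p.r.t * p.r.x)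
  eh : p.z * p.A * p.e.t * p.e.x * p.e.x + p.z * p.e.y * (p.W0 + p.e.v) ≤ p.e.μ * (p.e.t * p.e.x)
  hh : p.h.μ * (p.h.t * p.h.x) ≤ p.z * p.A * p.h.t * p.h.x * p.h.x + p.z * p.h.y * (p.W0 + p.h.v)
  μh : 1 ≤ p.h.μ
  μe : 1 ≤ p.e.μ
  xrh : p.h.x ≤ p.r.x
  yrh : p.h.y ≤ p.r.y
  trh : p.h.t * p.h.x ≤ p.r.t * p.r.x
  xhe : p.e.x ≤ p.h.x
  yhe : p.e.y ≤ p.h.y
  the : p.e.t * p.e.x ≤ p.h.t * p.h.x
  κ0 : 0 ≤ p.κ
  κ1 : p.κ ≤ 1
  b0 : 0 ≤ p.b
  d0 : 0 ≤ p.d
  κk : p.κ * p.h.k ≤ p.r.k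
  Aμ : 1 ≤ p.A * (1 - p.r.μ)
  W0V : p.A * (1 - p.κ) ≤ p.W0
  W2Q : p.A - p.b + p.d ≤ p.W2
  Qk : 0 ≤ p.A * p.r.k - p.b * p.h.k + p.d * p.e.k
  Qμ : p.d * (p.e.μ - 1) ≤ p.b * (p.h.μ - 1) + p.κ
  QV : p.d ≤ p.b - p.A * p.κ
  Q0 : 0 ≤ p.A - p.b + p.d
  Qx : p.d * (p.h.x - p.e.x) ≤ p.A * (p.r.x - p.h.x)
  Qy : p.d * (p.h.y - p.e.y) ≤ p.A * (p.r.y - p.h.y)
  Qt : p.d * (p.h.t * p.h.x - p.e.t * p.e.x) ≤ p.A * (p.r.t * p.r.x - p.h.t * p.h.x)
  fin : p.z * (p.A * (p.r.t * p.r.x)) ≤ 1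

namespace Prm

variable (p : Prm)

/-- Value functional. -/
noncomputable def V (s : List Forest) : ℝ := 1 * p.r.ev s + (-p.κ) * p.h.ev s

/-- Value functional for a leaf with siblings. -/
noncomputable def Q (s : List Forest) : ℝ :=
  1 * (p.A * p.r.ev s + (-p.b) * p.h.ev s) + p.d * p.e.ev s

/-- The factor of the current block. -/
noncomputable def U : Forest → List Forest → ℝ
  | Forest.nil, s => p.r.ev s
  | Forest.cons Forest.nil (Forest.cons _ _), s => p.Q s / p.A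
  | Forest.cons Forest.nil Forest.nil, s => p.V s
  | Forest.cons (Forest.cons _ _) _, s => p.V s

/-- The factor of the suspended blocks. -/
noncomputable def G : List Block → ℝ
  | [] => 1
  | b :: Z => wt p.A p.W0 p.W2 b.1 * om p.A p.W0 p.W2 b.2 * p.r.ev b.2 * G Z

/-- The potential. -/
noncomputable def F : List Block → ℝ
  | [] => 0
  | b :: Z => p.U b.1 b.2 * wt p.A p.W0 p.W2 b.1 * om p.A p.W0 p.W2 b.2 * p.G Z

end Prm

section main

variable {p : Prm} (hp : p.Ok)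

include hp

theorem A_pos : 0 < p.A := lt_of_lt_of_le one_pos hp.A1
theorem W0_pos : 0 < p.W0 := lt_of_lt_of_le one_pos hp.W01
theorem W2_pos : 0 < p.W2 := lt_of_lt_of_le one_pos hp.W21

theorem wtp (f : Forest) : 0 < wt p.A p.W0 p.W2 f :=
  wt_pos (A_pos hp) (W0_pos hp) (W2_pos hp) f

theorem omp (s : List Forest) : 0 < om p.A p.W0 p.W2 s :=
  om_pos (A_pos hp) (W0_pos hp) (W2_pos hp) s

theorem r_one (s : List Forest) : 1 ≤ p.r.ev s := ps_one hp.rO.x1 hp.rO.y1 hp.rO.t1 s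
theorem h_one (s : List Forest) : 1 ≤ p.h.ev s := ps_one hp.hO.x1 hp.hO.y1 hp.hO.t1 s
theorem e_one (s : List Forest) : 1 ≤ p.e.ev s := ps_one hp.eO.x1 hp.eO.y1 hp.eO.t1 s

theorem h_le_r (s : List Forest) : p.h.ev s ≤ p.r.ev s :=
  ps_mono hp.hO.x1 hp.hO.y1 hp.hO.t1 hp.xrh hp.yrh hp.trh s

theorem e_le_h (s : List Forest) : p.e.ev s ≤ p.h.ev s :=
  ps_mono hp.eO.x1 hp.eO.y1 hp.eO.t1 hp.xhe hp.yhe hp.the s

theorem V_nonneg (s : List Forest) : 0 ≤ p.V s := by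
  have h1 := h_le_r hp s
  have h2 := h_one hp s
  have h3 := mul_le_mul_of_nonneg_right hp.κ1 (by linarith : 0 ≤ p.h.ev s)
  unfold Prm.V
  linarith

theorem V_le (s : List Forest) : p.V s ≤ p.r.ev s := by
  have h2 := h_one hp s
  have h3 := mul_nonneg hp.κ0 (by linarith : 0 ≤ p.h.ev s)
  unfold Prm.V
  linarith

theorem Q_nonneg (s : List Forest) : 0 ≤ p.Q s := by
  have := ps_comb (b := p.b) hp.eO.x1 hp.eO.y1 (hp.xhe.trans hp.xrh) (hp.yhe.trans hp.yrh)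
    hp.xrh hp.yrh (by linarith [hp.hO.x1]) (by linarith [hp.hO.y1]) (by linarith [hp.hO.t1])
    hp.trh (A_pos hp).le hp.Q0 hp.Qx hp.Qy hp.Qt s
  unfold Prm.Q Fn.ev
  linarith

theorem Q_le (s : List Forest) : p.Q s ≤ p.A * p.V s := by
  have h1 := e_le_h hp s
  have h2 := h_one hp s
  have h3 := mul_le_mul_of_nonneg_left h1 hp.d0
  have h4 := mul_le_mul_of_nonneg_right hp.QV (by linarith : 0 ≤ p.h.ev s)
  unfold Prm.Q Prm.V
  nlinarith

theorem U_nonneg (R : Forest) (s : List Forest) : 0 ≤ p.U R s := by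
  match R with
  | Forest.nil => exact le_trans zero_le_one (r_one hp s)
  | Forest.cons Forest.nil (Forest.cons _ _) =>
    exact div_nonneg (Q_nonneg hp s) (A_pos hp).le
  | Forest.cons Forest.nil Forest.nil => exact V_nonneg hp s
  | Forest.cons (Forest.cons _ _) _ => exact V_nonneg hp s

theorem U_le_V {R : Forest} (hR : R ≠ Forest.nil) (s : List Forest) : p.U R s ≤ p.V s := by
  match R with
  | Forest.nil => exact absurd rfl hR
  | Forest.cons Forest.nil (Forest.cons _ _) =>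
    rw [Prm.U, div_le_iff₀ (A_pos hp)]
    linarith [Q_le hp s]
  | Forest.cons Forest.nil Forest.nil => exact le_rfl
  | Forest.cons (Forest.cons _ _) _ => exact le_rfl

theorem U_le_r (R : Forest) (s : List Forest) : p.U R s ≤ p.r.ev s := by
  by_cases hR : R = Forest.nil
  · subst hR; exact le_rfl
  · exact (U_le_V hp hR s).trans (V_le hp s)

theorem G_pos (Z : List Block) : 0 < p.G Z := by
  induction Z with
  | nil => rw [Prm.G]; exact one_pos
  | cons b Z ih =>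
    rw [Prm.G]
    have := r_one hp b.2
    exact mul_pos (mul_pos (mul_pos (wtp hp _) (omp hp _)) (by linarith)) ih

theorem F_nonneg (Z : List Block) : 0 ≤ p.F Z := by
  cases Z with
  | nil => rw [Prm.F]
  | cons b Z =>
    rw [Prm.F]
    exact mul_nonneg (mul_nonneg (mul_nonneg (U_nonneg hp _ _) (wtp hp _).le) (omp hp _).le)
      (G_pos hp Z).le

theorem F_close (Z : List Block) : ∀ (R : Forest) (s : List Forest),
    p.F (close Z R s) ≤ wt p.A p.W0 p.W2 R * om p.A p.W0 p.W2 s * p.r.ev s * p.G Z := by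
  induction Z with
  | nil =>
    intro R s
    rw [close, Prm.F, Prm.G]
    have h1 := U_le_r hp R s
    have h2 := mul_le_mul_of_nonneg_right h1 (mul_pos (wtp hp R) (omp hp s)).le
    simp only
    linarith
  | cons b Z ih =>
    intro R s
    cases R with
    | nil =>
      rw [close]
      refine (ih _ _).trans ?_
      rw [Prm.G, om_append, wt]
      have h1 : p.r.ev (s ++ b.2) ≤ p.r.ev s * p.r.ev b.2 :=
        ps_append hp.rO.x1 hp.rO.y1 hp.rO.t1 s b.2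
      have h2 : 0 ≤ wt p.A p.W0 p.W2 b.1 * (om p.A p.W0 p.W2 s * om p.A p.W0 p.W2 b.2) *
          p.G Z := (mul_pos (mul_pos (wtp hp _) (mul_pos (omp hp _) (omp hp _))) (G_pos hp Z)).le
      have h3 := mul_le_mul_of_nonneg_left h1 h2
      linarith
    | cons L R =>
      rw [close, Prm.F]
      have h1 := U_le_r hp (Forest.cons L R) s
      have h2 := mul_le_mul_of_nonneg_right h1
        (mul_pos (mul_pos (wtp hp (Forest.cons L R)) (omp hp s)) (G_pos hp (b :: Z))).le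
      simp only
      linarith

theorem V_super (s : List Forest) :
    MT p.z p.A p.W0 p.W2 p.V s + (1 - p.r.μ) * p.r.ev s ≤ p.V s := by
  have e : MT p.z p.A p.W0 p.W2 p.V s = 1 * MT p.z p.A p.W0 p.W2 p.r.ev s +
      (-p.κ) * MT p.z p.A p.W0 p.W2 p.h.ev s := MT_lin _ _ _ _ _ _
  have h1 := MT_ps_le hp.rO.hx hp.rO.hy hp.rO.x1 hp.rO.y1 hp.rO.hμ hp.rO.hk hp.rh s
  have h2 := MT_ps_ge hp.hO.hx hp.hO.hy hp.hO.x1 hp.hO.y1 hp.hO.hμ hp.hO.hk hp.hh s
  change MT p.z p.A p.W0 p.W2 p.r.ev s ≤ p.r.μ * p.r.ev s - p.r.k at h1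
  change p.h.μ * p.h.ev s - p.h.k ≤ MT p.z p.A p.W0 p.W2 p.h.ev s at h2
  have h3 := mul_le_mul_of_nonneg_left h2 hp.κ0
  have h4 := h_one hp s
  have h5 := mul_nonneg (mul_nonneg hp.κ0 (sub_nonneg.mpr hp.μh)) (by linarith : 0 ≤ p.h.ev s)
  have h6 := hp.κk
  rw [e]
  unfold Prm.V
  nlinarith

theorem V_superA (s : List Forest) :
    p.A * MT p.z p.A p.W0 p.W2 p.V s + p.r.ev s ≤ p.A * p.V s := by
  have h1 := mul_le_mul_of_nonneg_left (V_super hp s) (A_pos hp).le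
  have h2 := mul_le_mul_of_nonneg_right hp.Aμ (by linarith [r_one hp s] : 0 ≤ p.r.ev s)
  nlinarith

theorem Q_super (s : List Forest) :
    MT p.z p.A p.W0 p.W2 p.Q s + p.V s ≤ p.Q s := by
  have e : MT p.z p.A p.W0 p.W2 p.Q s = 1 * (p.A * MT p.z p.A p.W0 p.W2 p.r.ev s +
      (-p.b) * MT p.z p.A p.W0 p.W2 p.h.ev s) + p.d * MT p.z p.A p.W0 p.W2 p.e.ev s := by
    have e1 : MT p.z p.A p.W0 p.W2 p.Q s = 1 * MT p.z p.A p.W0 p.W2
        (fun s => p.A * p.r.ev s + (-p.b) * p.h.ev s) s + p.d * MT p.z p.A p.W0 p.W2 p.e.ev s :=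
      MT_lin _ _ _ _ _ _
    rw [e1, MT_lin]
  have h1 := MT_ps_le hp.rO.hx hp.rO.hy hp.rO.x1 hp.rO.y1 hp.rO.hμ hp.rO.hk hp.rh s
  have h2 := MT_ps_ge hp.hO.hx hp.hO.hy hp.hO.x1 hp.hO.y1 hp.hO.hμ hp.hO.hk hp.hh s
  have h3 := MT_ps_le hp.eO.hx hp.eO.hy hp.eO.x1 hp.eO.y1 hp.eO.hμ hp.eO.hk hp.eh s
  change MT p.z p.A p.W0 p.W2 p.r.ev s ≤ p.r.μ * p.r.ev s - p.r.k at h1
  change p.h.μ * p.h.ev s - p.h.k ≤ MT p.z p.A p.W0 p.W2 p.h.ev s at h2
  change MT p.z p.A p.W0 p.W2 p.e.ev s ≤ p.e.μ * p.e.ev s - p.e.k at h3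
  have a1 := mul_le_mul_of_nonneg_left h1 (A_pos hp).le
  have a2 := mul_le_mul_of_nonneg_left h2 hp.b0
  have a3 := mul_le_mul_of_nonneg_left h3 hp.d0
  have r1 := r_one hp s
  have r2 := h_one hp s
  have r3 := e_one hp s
  have b1 := mul_le_mul_of_nonneg_right hp.Aμ (by linarith : 0 ≤ p.r.ev s)
  have b2 := mul_le_mul_of_nonneg_left (e_le_h hp s)
    (mul_nonneg hp.d0 (sub_nonneg.mpr hp.μe))
  have b3 := mul_le_mul_of_nonneg_right hp.Qμ (by linarith : 0 ≤ p.h.ev s)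
  have b4 := hp.Qk
  rw [e]
  unfold Prm.V Prm.Q
  nlinarith

omit hp in
theorem sum_F (L R : Forest) (s : List Forest) (Z : List Block) :
    p.z * (∑ j ∈ range (s.length + 1),
      p.F ((Forest.cons L R, mk (s.take j) :: s.drop j) :: Z)) =
    MT p.z p.A p.W0 p.W2 (p.U (Forest.cons L R)) s * wt p.A p.W0 p.W2 (Forest.cons L R) *
      om p.A p.W0 p.W2 s * p.G Z := by
  unfold MT
  rw [mul_assoc, mul_assoc, mul_assoc, Finset.sum_mul]
  congr 1
  apply Finset.sum_congr rfl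
  intro j _
  rw [Prm.F]
  simp only
  rw [om_step]
  ring

theorem F_step (L R : Forest) (s : List Forest) (Z : List Block) :
    p.z * (∑ j ∈ range (s.length + 1),
      p.F ((Forest.cons L R, mk (s.take j) :: s.drop j) :: Z)) + p.F (adv L R s Z) ≤
      p.F ((Forest.cons L R, s) :: Z) := by
  rw [sum_F]
  have hG := G_pos hp Z
  have ho := omp hp s
  have hA := A_pos hp
  rw [Prm.F]
  simp only
  match L, R with
  | Forest.nil, Forest.nil =>
    have h1 := F_close hp Z Forest.nil s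
    rw [adv]
    have h2 := mul_le_mul_of_nonneg_right (V_superA hp s) (mul_pos ho hG).le
    have e1 : p.U (Forest.cons Forest.nil Forest.nil) = p.V := rfl
    have e2 : wt p.A p.W0 p.W2 (Forest.cons Forest.nil Forest.nil) = p.A := by simp [wt, cw]
    have e3 : wt p.A p.W0 p.W2 Forest.nil = 1 := rfl
    rw [e1, e2]
    rw [e3] at h1
    linarith
  | Forest.nil, Forest.cons a b =>
    have h1 : p.F (adv Forest.nil (Forest.cons a b) s Z) ≤
        p.V s * wt p.A p.W0 p.W2 (Forest.cons a b) * om p.A p.W0 p.W2 s * p.G Z := by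
      have hcl : adv Forest.nil (Forest.cons a b) s Z = (Forest.cons a b, s) :: Z := by
        cases Z <;> rfl
      rw [hcl, Prm.F]
      have h2 := U_le_V hp (R := Forest.cons a b) (by simp) s
      have h3 := mul_le_mul_of_nonneg_right h2
        (mul_pos (mul_pos (wtp hp (Forest.cons a b)) ho) hG).le
      simp only
      linarith
    have e1 : p.U (Forest.cons Forest.nil (Forest.cons a b)) =
        fun s => (1 / p.A) * p.Q s + 0 * p.Q s := by
      funext s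
      rw [Prm.U]
      ring
    have e2 : wt p.A p.W0 p.W2 (Forest.cons Forest.nil (Forest.cons a b)) =
        p.A * wt p.A p.W0 p.W2 (Forest.cons a b) := by
      rw [wt, cw, wt]; ring
    have h4 := mul_le_mul_of_nonneg_right (Q_super hp s)
      (mul_pos (mul_pos (wtp hp (Forest.cons a b)) ho) hG).le
    rw [e1, e2, MT_lin]
    have h5 : (1 / p.A) * p.A = 1 := by field_simp
    set W := wt p.A p.W0 p.W2 (Forest.cons a b)
    set O := om p.A p.W0 p.W2 s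
    have g1 : (1 / p.A * MT p.z p.A p.W0 p.W2 p.Q s + 0 * MT p.z p.A p.W0 p.W2 p.Q s) *
        (p.A * W) * O * p.G Z = ((1 / p.A) * p.A) * (MT p.z p.A p.W0 p.W2 p.Q s *
          (W * O * p.G Z)) := by ring
    have g2 : (1 / p.A * p.Q s + 0 * p.Q s) * (p.A * W) * O * p.G Z =
        ((1 / p.A) * p.A) * (p.Q s * (W * O * p.G Z)) := by ring
    rw [g1, g2, h5]
    linarith
  | Forest.cons a b, R =>
    have e1 : p.U (Forest.cons (Forest.cons a b) R) = p.V := rfl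
    have e2 : adv (Forest.cons a b) R s Z = (Forest.cons a b, []) :: (R, s) :: Z := rfl
    have e3 : wt p.A p.W0 p.W2 (Forest.cons (Forest.cons a b) R) =
      cw p.A p.W0 p.W2 (Forest.cons a b) * wt p.A p.W0 p.W2 (Forest.cons a b) *
        wt p.A p.W0 p.W2 R := rfl
    have e4 : p.F ((Forest.cons a b, []) :: (R, s) :: Z) =
      p.U (Forest.cons a b) [] * wt p.A p.W0 p.W2 (Forest.cons a b) * 1 *
        (wt p.A p.W0 p.W2 R * om p.A p.W0 p.W2 s * p.r.ev s * p.G Z) := rfl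
    have hc : p.A * p.U (Forest.cons a b) [] ≤ cw p.A p.W0 p.W2 (Forest.cons a b) := by
      have v0 : p.V [] = 1 - p.κ := by
        unfold Prm.V Fn.ev
        rw [ps, ps]; ring
      have q0 : p.Q [] = p.A - p.b + p.d := by
        unfold Prm.Q Fn.ev
        rw [ps, ps, ps]; ring
      match a, b with
      | Forest.nil, Forest.nil =>
        rw [Prm.U, cw, v0]; exact hp.W0V
      | Forest.nil, Forest.cons _ _ =>
        rw [Prm.U, cw, q0, mul_div_cancel₀ _ hA.ne']; exact hp.W2Q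
      | Forest.cons _ _, b =>
        rw [Prm.U, cw, v0]; exact hp.W0V
    rw [e1, e2, e3, e4]
    set c := cw p.A p.W0 p.W2 (Forest.cons a b)
    set wL := wt p.A p.W0 p.W2 (Forest.cons a b)
    set wR := wt p.A p.W0 p.W2 R
    set O := om p.A p.W0 p.W2 s
    have hwL : 0 < wL := wtp hp _
    have hwR : 0 < wR := wtp hp _
    have hcp : 0 < c := cw_pos hA (W0_pos hp) (W2_pos hp) _
    have k1 := V_superA hp s
    have k2 : 0 ≤ wL * wR * O * p.G Z := by positivity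
    -- c * (V - MT V) ≥ c * r / A ≥ U * r
    have k3 : p.A * (c * MT p.z p.A p.W0 p.W2 p.V s + p.U (Forest.cons a b) [] * p.r.ev s) ≤
        p.A * (c * p.V s) := by
      have k4 := mul_le_mul_of_nonneg_left k1 hcp.le
      have k5 := mul_le_mul_of_nonneg_right hc (by linarith [r_one hp s] : 0 ≤ p.r.ev s)
      nlinarith
    have k6 : c * MT p.z p.A p.W0 p.W2 p.V s + p.U (Forest.cons a b) [] * p.r.ev s ≤
        c * p.V s := le_of_mul_le_mul_left k3 hA
    have k7 := mul_le_mul_of_nonneg_right k6 k2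
    nlinarith

theorem main_bound {n : ℕ} (hn : 1 ≤ n) :
    (Nat.card {π : Equiv.Perm (Fin n) // AvPerm π} : ℝ) * p.z ^ n ≤ 1 := by
  have h0 : p.F [(Forest.nil, [])] = 1 := by
    rw [Prm.F, Prm.U, Prm.G, wt, om, Fn.ev, ps]; ring
  have := card_bound hp.z0 p.F (F_nonneg hp) ?_ ?_ ?_ (F_step hp) hn
  · rwa [h0] at this
  · rw [h0]
    rw [Prm.F, Prm.U, Prm.G, Fn.ev]
    simp only [wt, om, ps, pp, cw]
    have := hp.fin
    linarith
  · intro s _
    rw [Prm.F, Prm.U, Prm.G]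
    simp only [wt]
    have h1 := r_one hp s
    have h2 := om_one hp.A1 hp.W01 hp.W21 s
    nlinarith
  · intro s hs
    rw [Prm.F, Prm.F, Prm.U, Prm.G]
    simp only [wt, wt_mk, om]
    have h1 : p.U (mk s) [] ≤ p.r.ev s := by
      refine (U_le_r hp (mk s) []).trans ?_
      rw [Fn.ev, ps]
      exact r_one hp s
    have h2 := mul_le_mul_of_nonneg_right h1 (omp hp s).le
    linarith

end main

end H98Av
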