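import Pool.Agent.Lib.MP_b8e197_co.H98.Defs

namespace H98Av

open Classical in
/-- Accepted words of length at most `N`. -/
noncomputable def codes : ℕ → List Block → ℕ → Finset (List Letter)
  | 0, _, _ => ∅
  | _ + 1, [], _ => ∅
  | _ + 1, (Forest.nil, _) :: _ :: _, _ => ∅
  | _ + 1, [(Forest.nil, [])], 0 => ∅
  | N + 1, [(Forest.nil, [])], n + 1 =>
      (codes N [(Forest.nil, [Forest.nil])] n).image (fun w => Letter.pt 0 :: w)
  | _ + 1, [(Forest.nil, _ :: _)], 0 => {[Letter.cut]}
  | N + 1, [(Forest.nil, f :: s)], n + 1 =>
      (codes N [(mk (f :: s), [])] (n + 1)).image (fun w => Letter.cut :: w)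
  | N + 1, (Forest.cons L R, s) :: Z, 0 =>
      (codes N (adv L R s Z) 0).image (fun w => Letter.top :: w)
  | N + 1, (Forest.cons L R, s) :: Z, n + 1 =>
      ((Finset.range (s.length + 1)).biUnion (fun j =>
        (codes N ((Forest.cons L R, mk (s.take j) :: s.drop j) :: Z) n).image
          (fun w => Letter.pt j :: w))) ∪
      (codes N (adv L R s Z) (n + 1)).image (fun w => Letter.top :: w)

theorem Acc.mem_codes {Z : List Block} {n : ℕ} {w : List Letter} (h : Acc Z n w) :
    ∀ N, w.length ≤ N → w ∈ codes N Z n := by
  classical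
  induction h with
  | @pt L R s Z n w j hj h ih =>
    intro N hN
    obtain ⟨M, rfl⟩ : ∃ M, N = M + 1 := ⟨N - 1, by simp only [List.length_cons] at hN; omega⟩
    rw [codes, Finset.mem_union]
    left
    rw [Finset.mem_biUnion]
    refine ⟨j, by rw [Finset.mem_range]; omega, ?_⟩
    rw [Finset.mem_image]
    exact ⟨w, ih M (by simpa using hN), rfl⟩
  | @ptf n w h ih =>
    intro N hN
    obtain ⟨M, rfl⟩ : ∃ M, N = M + 1 := ⟨N - 1, by simp only [List.length_cons] at hN; omega⟩
    rw [codes, Finset.mem_image]
    exact ⟨w, ih M (by simpa using hN), rfl⟩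
  | @top L R s Z n w h ih =>
    intro N hN
    obtain ⟨M, rfl⟩ : ∃ M, N = M + 1 := ⟨N - 1, by simp only [List.length_cons] at hN; omega⟩
    have h1 : Letter.top :: w ∈ (codes M (adv L R s Z) n).image (fun w => Letter.top :: w) := by
      rw [Finset.mem_image]
      exact ⟨w, ih M (by simpa using hN), rfl⟩
    cases n with
    | zero => rw [codes]; exact h1
    | succ n => rw [codes, Finset.mem_union]; exact Or.inr h1
  | @cut0 s hs =>
    intro N hN
    obtain ⟨M, rfl⟩ : ∃ M, N = M + 1 := ⟨N - 1, by simp only [List.length_cons] at hN; omega⟩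
    cases s with
    | nil => exact absurd rfl hs
    | cons f s => rw [codes]; simp
  | @cut s n w hs h ih =>
    intro N hN
    obtain ⟨M, rfl⟩ : ∃ M, N = M + 1 := ⟨N - 1, by simp only [List.length_cons] at hN; omega⟩
    cases s with
    | nil => exact absurd rfl hs
    | cons f s =>
      rw [codes, Finset.mem_image]
      exact ⟨w, ih M (by simpa using hN), rfl⟩

/-- A supersolution of the counting recursion bounds the number of codes. -/
theorem codes_bound {z : ℝ} (hz : 0 ≤ z) (F : List Block → ℝ) (hF : ∀ Z, 0 ≤ F Z)
    (h1 : z * F [(Forest.nil, [Forest.nil])] ≤ F [(Forest.nil, [])])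
    (h2 : ∀ s, s ≠ [] → 1 ≤ F [(Forest.nil, s)])
    (h3 : ∀ s, s ≠ [] → F [(mk s, [])] ≤ F [(Forest.nil, s)])
    (h4 : ∀ L R s Z, z * (∑ j ∈ Finset.range (s.length + 1),
      F ((Forest.cons L R, mk (s.take j) :: s.drop j) :: Z)) + F (adv L R s Z) ≤
        F ((Forest.cons L R, s) :: Z)) (N : ℕ) :
    ∀ (Z : List Block) (n : ℕ), ((codes N Z n).card : ℝ) * z ^ n ≤ F Z := by
  classical
  induction N with
  | zero =>
    intro Z n
    rw [codes]
    simpa using hF Z
  | succ N ih =>
    intro Z n
    have hpow : ∀ n : ℕ, 0 ≤ z ^ n := fun n => pow_nonneg hz n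
    match Z, n with
    | [], n => rw [codes]; simpa using hF []
    | (Forest.nil, s) :: b :: Z, n => rw [codes]; simpa using hF _
    | [(Forest.nil, [])], 0 => rw [codes]; simpa using hF _
    | [(Forest.nil, [])], n + 1 =>
      rw [codes]
      refine le_trans ?_ h1
      calc _ ≤ (((codes N [(Forest.nil, [Forest.nil])] n).card : ℕ) : ℝ) * z ^ (n + 1) := by
              apply mul_le_mul_of_nonneg_right _ (hpow _)
              exact_mod_cast Finset.card_image_le
        _ = z * ((((codes N [(Forest.nil, [Forest.nil])] n).card : ℕ) : ℝ) * z ^ n) := by ring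
        _ ≤ _ := mul_le_mul_of_nonneg_left (ih _ _) hz
    | [(Forest.nil, f :: s)], 0 =>
      rw [codes]
      simpa using h2 (f :: s) (by simp)
    | [(Forest.nil, f :: s)], n + 1 =>
      rw [codes]
      refine le_trans ?_ (h3 (f :: s) (by simp))
      calc _ ≤ (((codes N [(mk (f :: s), [])] (n + 1)).card : ℕ) : ℝ) * z ^ (n + 1) := by
              apply mul_le_mul_of_nonneg_right _ (hpow _)
              exact_mod_cast Finset.card_image_le
        _ ≤ _ := ih _ _
    | (Forest.cons L R, s) :: Z, 0 =>
      rw [codes]
      have hs : 0 ≤ z * (∑ j ∈ Finset.range (s.length + 1),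
          F ((Forest.cons L R, mk (s.take j) :: s.drop j) :: Z)) :=
        mul_nonneg hz (Finset.sum_nonneg fun j _ => hF _)
      have h5 := h4 L R s Z
      have h6 := ih (adv L R s Z) 0
      have h7 : (((codes N (adv L R s Z) 0).image (fun w => Letter.top :: w)).card : ℝ) ≤
          ((codes N (adv L R s Z) 0).card : ℝ) := by exact_mod_cast Finset.card_image_le
      simp only [pow_zero, mul_one] at h6 ⊢
      linarith
    | (Forest.cons L R, s) :: Z, n + 1 =>
      rw [codes]
      have h5 := h4 L R s Z
      have h6 := ih (adv L R s Z) (n + 1)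
      have h7 : (((codes N (adv L R s Z) (n + 1)).image (fun w => Letter.top :: w)).card : ℝ) ≤
          ((codes N (adv L R s Z) (n + 1)).card : ℝ) := by exact_mod_cast Finset.card_image_le
      have h8 : (((Finset.range (s.length + 1)).biUnion (fun j =>
          (codes N ((Forest.cons L R, mk (s.take j) :: s.drop j) :: Z) n).image
          (fun w => Letter.pt j :: w))).card : ℝ) ≤ ∑ j ∈ Finset.range (s.length + 1),
          ((codes N ((Forest.cons L R, mk (s.take j) :: s.drop j) :: Z) n).card : ℝ) := by
        have : ((Finset.range (s.length + 1)).biUnion (fun j =>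
          (codes N ((Forest.cons L R, mk (s.take j) :: s.drop j) :: Z) n).image
          (fun w => Letter.pt j :: w))).card ≤ ∑ j ∈ Finset.range (s.length + 1),
          (codes N ((Forest.cons L R, mk (s.take j) :: s.drop j) :: Z) n).card :=
          Finset.card_biUnion_le.trans (Finset.sum_le_sum fun j _ => Finset.card_image_le)
        exact_mod_cast this
      have h9 := Finset.card_union_le ((Finset.range (s.length + 1)).biUnion (fun j =>
          (codes N ((Forest.cons L R, mk (s.take j) :: s.drop j) :: Z) n).image
          (fun w => Letter.pt j :: w)))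
          ((codes N (adv L R s Z) (n + 1)).image (fun w => Letter.top :: w))
      have h9' : ((((Finset.range (s.length + 1)).biUnion (fun j =>
          (codes N ((Forest.cons L R, mk (s.take j) :: s.drop j) :: Z) n).image
          (fun w => Letter.pt j :: w))) ∪
          (codes N (adv L R s Z) (n + 1)).image (fun w => Letter.top :: w)).card : ℝ) ≤
          (((Finset.range (s.length + 1)).biUnion (fun j =>
          (codes N ((Forest.cons L R, mk (s.take j) :: s.drop j) :: Z) n).image
          (fun w => Letter.pt j :: w))).card : ℝ) +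
          (((codes N (adv L R s Z) (n + 1)).image (fun w => Letter.top :: w)).card : ℝ) := by
        exact_mod_cast h9
      have h10 : (∑ j ∈ Finset.range (s.length + 1),
          ((codes N ((Forest.cons L R, mk (s.take j) :: s.drop j) :: Z) n).card : ℝ)) *
            z ^ (n + 1) ≤ z * (∑ j ∈ Finset.range (s.length + 1),
          F ((Forest.cons L R, mk (s.take j) :: s.drop j) :: Z)) := by
        rw [Finset.sum_mul, Finset.mul_sum]
        apply Finset.sum_le_sum
        intro j _
        calc _ = z * (((codes N ((Forest.cons L R, mk (s.take j) :: s.drop j) :: Z) n).card : ℝ)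
              * z ^ n) := by ring
          _ ≤ _ := mul_le_mul_of_nonneg_left (ih _ _) hz
      calc _ ≤ ((∑ j ∈ Finset.range (s.length + 1),
          ((codes N ((Forest.cons L R, mk (s.take j) :: s.drop j) :: Z) n).card : ℝ)) +
          ((codes N (adv L R s Z) (n + 1)).card : ℝ)) * z ^ (n + 1) := by
              apply mul_le_mul_of_nonneg_right _ (hpow _)
              linarith
        _ ≤ _ := by
              rw [add_mul]
              linarith

end H98Av
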