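import Mathlib

/-!
Combinatorial objects for the upper bound on the growth rate of 1324-avoiders:
plane forests, the stack machine and the pattern conditions on lists.
-/

namespace H98Av

/-- Plane forests: `cons L R` has first tree with children forest `L`, and the
remaining trees form the forest `R`. -/
inductive Forest where
  | nil : Forest
  | cons : Forest → Forest → Forest

/-- Letters of the machine. -/
inductive Letter where
  | pt : ℕ → Letter
  | top : Letter
  | cut : Letter

namespace Forest

/-- number of nodes -/
def size : Forest → ℕ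
  | nil => 0
  | cons L R => 1 + L.size + R.size

end Forest

/-- put the trees of the stack `s` (top first) in front of `acc`. -/
def mkAux (acc : Forest) (s : List Forest) : Forest :=
  s.foldl (fun a t => Forest.cons t a) acc

/-- The forest of a stack. -/
def mk (s : List Forest) : Forest := mkAux Forest.nil s

@[simp] theorem mkAux_nil (acc : Forest) : mkAux acc [] = acc := rfl
@[simp] theorem mkAux_cons (acc f : Forest) (s : List Forest) :
    mkAux acc (f :: s) = mkAux (Forest.cons f acc) s := rfl
@[simp] theorem mk_nil : mk [] = Forest.nil := rfl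

/-- A block: unread forest of the top points, and the stack of the block. -/
abbrev Block := Forest × List Forest

/-- Close blocks whose unread forest is empty. -/
def close : List Block → Forest → List Forest → List Block
  | [], R, s => [(R, s)]
  | b :: Z, Forest.nil, s => close Z b.1 (s ++ b.2)
  | b :: Z, Forest.cons L R, s => (Forest.cons L R, s) :: b :: Z

/-- The state after reading a top letter with unread forest `cons L R`. -/
def adv (L R : Forest) (s : List Forest) (Z : List Block) : List Block :=
  match L with
  | Forest.nil => close Z R s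
  | Forest.cons a b => (Forest.cons a b, []) :: (R, s) :: Z

/-- Runs of the machine without cuts. -/
inductive Run : List Block → List Letter → List Block → Prop
  | nil (Z : List Block) : Run Z [] Z
  | pt {L R : Forest} {s : List Forest} {Z Z' : List Block} {w : List Letter} (j : ℕ)
      (hj : j ≤ s.length) (h : Run ((Forest.cons L R, mk (s.take j) :: s.drop j) :: Z) w Z') :
      Run ((Forest.cons L R, s) :: Z) (Letter.pt j :: w) Z'
  | ptf {Z' : List Block} {w : List Letter}
      (h : Run [(Forest.nil, [Forest.nil])] w Z') :
      Run [(Forest.nil, [])] (Letter.pt 0 :: w) Z'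
  | top {L R : Forest} {s : List Forest} {Z Z' : List Block} {w : List Letter}
      (h : Run (adv L R s Z) w Z') :
      Run ((Forest.cons L R, s) :: Z) (Letter.top :: w) Z'

/-- Complete accepted words, `n` points being left. -/
inductive Acc : List Block → ℕ → List Letter → Prop
  | pt {L R : Forest} {s : List Forest} {Z : List Block} {n : ℕ} {w : List Letter} (j : ℕ)
      (hj : j ≤ s.length) (h : Acc ((Forest.cons L R, mk (s.take j) :: s.drop j) :: Z) n w) :
      Acc ((Forest.cons L R, s) :: Z) (n + 1) (Letter.pt j :: w)
  | ptf {n : ℕ} {w : List Letter}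
      (h : Acc [(Forest.nil, [Forest.nil])] n w) :
      Acc [(Forest.nil, [])] (n + 1) (Letter.pt 0 :: w)
  | top {L R : Forest} {s : List Forest} {Z : List Block} {n : ℕ} {w : List Letter}
      (h : Acc (adv L R s Z) n w) :
      Acc ((Forest.cons L R, s) :: Z) n (Letter.top :: w)
  | cut0 {s : List Forest} (hs : s ≠ []) : Acc [(Forest.nil, s)] 0 [Letter.cut]
  | cut {s : List Forest} {n : ℕ} {w : List Letter} (hs : s ≠ [])
      (h : Acc [(mk s, [])] (n + 1) w) :
      Acc [(Forest.nil, s)] (n + 1) (Letter.cut :: w)

/-- number of points in a word -/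
def npts : List Letter → ℕ
  | [] => 0
  | Letter.pt _ :: w => npts w + 1
  | _ :: w => npts w

/-- the mask of a word: `true` for a top letter. -/
def mask : List Letter → List Bool
  | [] => []
  | Letter.pt _ :: w => false :: mask w
  | Letter.top :: w => true :: mask w
  | Letter.cut :: w => mask w

/-- no cut in the word -/
def NoCut : List Letter → Prop
  | [] => True
  | Letter.cut :: _ => False
  | _ :: w => NoCut w

/-- Avoidance of 1324 for a list of numbers. -/
def Av1324 (v : List ℕ) : Prop :=
  ∀ a b c d : ℕ, List.Sublist [a, b, c, d] v → ¬ (a < c ∧ c < b ∧ b < d)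

/-- Avoidance of 132 for a list of numbers. -/
def Av132 (v : List ℕ) : Prop :=
  ∀ a b c : ℕ, List.Sublist [a, b, c] v → ¬ (a < c ∧ c < b)

/-- The list of top points, 213-avoiding, with its forest. -/
inductive TopList : Forest → List ℕ → Prop
  | nil : TopList Forest.nil []
  | cons {L R : Forest} {vL vR : List ℕ} {M : ℕ} (hL : TopList L vL) (hR : TopList R vR)
      (h1 : ∀ x ∈ vL, M < x) (h2 : ∀ x ∈ vR, x < M) :
      TopList (Forest.cons L R) (M :: (vL ++ vR))

/-- The list of bottom points of a forest, 132-avoiding. -/
inductive ForestList : Forest → List ℕ → Prop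
  | nil : ForestList Forest.nil []
  | cons {L R : Forest} {uL uR : List ℕ} {M : ℕ} (hL : ForestList L uL) (hR : ForestList R uR)
      (h1 : ∀ x ∈ uL, x < M) (h2 : ∀ x ∈ uL, ∀ y ∈ uR, y < x) (h3 : ∀ y ∈ uR, y < M) :
      ForestList (Forest.cons L R) (uL ++ M :: uR)

/-- The list of bottom points of a stack. -/
inductive StackList : List Forest → List ℕ → Prop
  | nil : StackList [] []
  | cons {f : Forest} {s : List Forest} {u w : List ℕ} {M : ℕ}
      (hs : StackList s u) (hf : ForestList f w) (h1 : ∀ x ∈ w, x < M)
      (h2 : ∀ x ∈ u, ∀ y ∈ w, y < x) (h3 : ∀ x ∈ u, M < x) :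
      StackList (f :: s) (u ++ (w ++ [M]))

end H98Av
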