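import Pool.Agent.Lib.MP_b8e197_co.H98.Scan

namespace H98Av

open List

/-- The class of lists with `n` bottom points and top points of shape `t`. -/
def InC (t : Forest) (n : ℕ) (v : List ℕ) : Prop :=
  v.Perm (List.range (t.size + n)) ∧ Av1324 v ∧
    TopList t (v.filter (fun x => decide (n ≤ x)))

/-- Complete code words for `InC t n`. -/
def Good (t : Forest) (n : ℕ) (w : List Letter) : Prop :=
  (n = 0 ∧ w = []) ∨ (1 ≤ n ∧ Acc [(t, [])] n w)

theorem Run.acc {Z Z' : List Block} {w : List Letter} (h : Run Z w Z') {m : ℕ}
    {w' : List Letter} (h' : Acc Z' m w') : Acc Z (npts w + m) (w ++ w') := by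
  induction h with
  | nil Z => simpa [npts] using h'
  | @pt L R s Z Z' w j hj h ih =>
    have := Acc.pt j hj (ih h')
    have e : npts (Letter.pt j :: w) + m = (npts w + m) + 1 := by simp [npts]; omega
    rw [e]; exact this
  | @ptf Z' w h ih =>
    have := Acc.ptf (ih h')
    have e : npts (Letter.pt 0 :: w) + m = (npts w + m) + 1 := by simp [npts]; omega
    rw [e]; exact this
  | @top L R s Z Z' w h ih =>
    exact Acc.top (ih h')

theorem ForestList.length {f : Forest} {u : List ℕ} (h : ForestList f u) :
    u.length = f.size := by
  induction h with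
  | nil => rfl
  | cons hL hR h1 h2 h3 ihL ihR => simp [Forest.size, ihL, ihR]; omega

theorem count_false (n : ℕ) (v : List ℕ) :
    (v.map (fun x => decide (n ≤ x))).count false =
      (v.filter (fun x => decide (x < n))).length := by
  induction v with
  | nil => rfl
  | cons a v ih =>
    by_cases h : n ≤ a
    · have h' : ¬ a < n := by omega
      simp only [List.map_cons, h, h', decide_true, decide_false, List.filter_cons,
        List.count_cons]
      simpa using ih
    · have h' : a < n := by omega
      simp only [List.map_cons, h, h', decide_true, decide_false, List.filter_cons,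
        List.count_cons]
      simpa using ih

theorem recon {n : ℕ} : ∀ {v v' : List ℕ},
    v.map (fun x => decide (n ≤ x)) = v'.map (fun x => decide (n ≤ x)) →
    v.filter (fun x => decide (n ≤ x)) = v'.filter (fun x => decide (n ≤ x)) →
    v.filter (fun x => decide (x < n)) = v'.filter (fun x => decide (x < n)) → v = v' := by
  intro v
  induction v with
  | nil =>
    intro v' h _ _
    simp only [List.map_nil] at h
    exact (List.map_eq_nil_iff.mp h.symm).symm
  | cons a v ih =>
    intro v' h1 h2 h3
    cases v' with
    | nil => simp at h1
    | cons b v' =>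
      simp only [List.map_cons, List.cons.injEq] at h1
      by_cases ha : n ≤ a
      · have hb : n ≤ b := by
          have := h1.1
          simpa [ha] using this
        have ha' : ¬ a < n := by omega
        have hb' : ¬ b < n := by omega
        simp only [List.filter_cons, ha, hb, ha', hb', decide_true, decide_false, if_true] at h2 h3
        rw [List.cons.injEq] at h2
        rw [h2.1, ih h1.2 h2.2 (by simpa using h3)]
      · have hb : ¬ n ≤ b := by
          have := h1.1
          simpa [ha] using this
        have ha' : a < n := by omega
        have hb' : b < n := by omega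
        simp only [List.filter_cons, ha, hb, ha', hb', decide_true, decide_false, if_true] at h2 h3
        rw [List.cons.injEq] at h3
        rw [h3.1, ih h1.2 (by simpa using h2) h3.2]

theorem cut_split : ∀ {w1 w1' w2 w2' : List Letter}, NoCut w1 → NoCut w1' →
    w1 ++ Letter.cut :: w2 = w1' ++ Letter.cut :: w2' → w1 = w1' ∧ w2 = w2' := by
  intro w1
  induction w1 with
  | nil =>
    intro w1' w2 w2' _ h' h
    cases w1' with
    | nil => simpa using h
    | cons a w1' =>
      rw [List.nil_append, List.cons_append, List.cons.injEq] at h
      rw [← h.1] at h'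
      exact absurd h' (by simp [NoCut])
  | cons a w1 ih =>
    intro w1' w2 w2' h0 h' h
    cases w1' with
    | nil =>
      rw [List.nil_append, List.cons_append, List.cons.injEq] at h
      rw [h.1] at h0
      exact absurd h0 (by simp [NoCut])
    | cons b w1' =>
      rw [List.cons_append, List.cons_append, List.cons.injEq] at h
      have n1 : NoCut w1 := by cases a <;> first | exact h0 | exact h0.elim
      have n2 : NoCut w1' := by cases b <;> first | exact h' | exact h'.elim
      obtain ⟨e1, e2⟩ := ih n1 n2 h.2
      exact ⟨by rw [h.1, e1], e2⟩

theorem filter_range {m n : ℕ} {v : List ℕ} (h : v.Perm (List.range (m + n))) :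
    (v.filter (fun x => decide (x < n))).Perm (List.range n) := by
  have hnd : v.Nodup := h.nodup_iff.mpr List.nodup_range
  rw [List.perm_ext_iff_of_nodup (hnd.filter _) List.nodup_range]
  intro a
  rw [List.mem_filter, h.mem_iff, List.mem_range, List.mem_range, decide_eq_true_eq]
  omega

/-- Data of the first phase. -/
def Phase (t : Forest) (n : ℕ) (v : List ℕ) (w : List Letter) (l : ℕ) (s : List Forest) : Prop :=
  1 ≤ l ∧ l ≤ n ∧ Run [(t, [])] w [(Forest.nil, s)] ∧ s ≠ [] ∧
    StackList s ((v.filter (fun x => decide (x < n))).take l) ∧
    v.map (fun x => decide (n ≤ x)) = mask w ++ List.replicate (n - l) false ∧ npts w = l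

theorem map_all_lt {n : ℕ} {v : List ℕ} (h : ∀ x ∈ v, x < n) :
    v.map (fun x => decide (n ≤ x)) = List.replicate v.length false := by
  rw [List.eq_replicate_iff]
  refine ⟨by simp, ?_⟩
  intro b hb
  rw [List.mem_map] at hb
  obtain ⟨x, hx, rfl⟩ := hb
  have := h x hx
  simp only [decide_eq_false_iff_not, not_le]
  exact this

theorem stack_one (q : ℕ) : StackList [Forest.nil] [q] := by
  have := StackList.cons (M := q) StackList.nil ForestList.nil (by simp) (by simp) (by simp)
  simpa using this

theorem phase_exists {t : Forest} {n : ℕ} {v : List ℕ} (hn : 1 ≤ n) (h : InC t n v) :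
    ∃ d : List Letter × ℕ × List Forest, Phase t n v d.1 d.2.1 d.2.2 := by
  obtain ⟨hp, hav, ht⟩ := h
  have hfr := filter_range hp
  have hlen : (v.filter (fun x => decide (x < n))).length = n := by
    rw [hfr.length_eq, List.length_range]
  have hnd : v.Nodup := hp.nodup_iff.mpr List.nodup_range
  by_cases htn : t = Forest.nil
  · subst htn
    generalize hf : v.filter (fun x => decide (n ≤ x)) = f at ht
    cases ht
    rw [List.filter_eq_nil_iff] at hf
    have hv : ∀ x ∈ v, x < n := by
      intro x hx
      have := hf x hx
      simpa using this
    have hvf := filter_lt_eq hv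
    rw [hvf] at hlen
    refine ⟨([Letter.pt 0], 1, [Forest.nil]), le_rfl, hn, Run.ptf (Run.nil _), by simp, ?_, ?_,
      rfl⟩
    · rw [hvf]
      cases v with
      | nil => simp only [List.length_nil] at hlen; omega
      | cons q v => simpa using stack_one q
    · rw [map_all_lt hv, hlen]
      simp only [mask]
      have : n = (n - 1) + 1 := by omega
      rw [this, List.replicate_succ]
      simp
  · have hne : v.filter (fun x => decide (n ≤ x)) ≠ [] := by
      intro hcon
      rw [hcon] at ht
      cases ht
      exact htn rfl
    obtain ⟨v1, v2, hv12, g1, g2, g3⟩ := filter_split (n := n) (v := v) (b := []) hne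
      (List.append_nil _).symm
    rw [← g1] at ht
    clear g1
    subst hv12
    rw [List.filter_eq_nil_iff] at g2
    have hv2 : ∀ x ∈ v2, x < n := by
      intro x hx
      have := g2 x hx
      simpa using this
    have hv2f := filter_lt_eq hv2
    obtain ⟨w, s, r, q, m⟩ := scan_seg n t htn v1 [] [] [] ht g3
      (by simpa using hav.sublist (List.sublist_append_left _ _))
      (by simpa using hnd.sublist (List.sublist_append_left _ _)) (by simp) StackList.nil
    rw [List.nil_append] at q
    have hcl : close [] Forest.nil s = [(Forest.nil, s)] := rfl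
    rw [hcl] at r
    rw [List.filter_append, hv2f, List.length_append] at hlen
    by_cases hz : v1.filter (fun x => decide (x < n)) = []
    · rw [hz] at q
      have hs := q.eq_nil_of_nil
      subst hs
      rw [hz, List.length_nil, Nat.zero_add] at hlen
      refine ⟨(w ++ [Letter.pt 0], 1, [Forest.nil]), le_rfl, hn,
        r.trans (Run.ptf (Run.nil _)), by simp, ?_, ?_, ?_⟩
      · rw [List.filter_append, hv2f, hz]
        cases v2 with
        | nil => simp only [List.length_nil] at hlen; omega
        | cons q v => simpa using stack_one q
      · rw [List.map_append, map_all_lt hv2, hlen, mask_append, m]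
        simp only [mask]
        have : n = (n - 1) + 1 := by omega
        rw [List.append_assoc]
        congr 1
        have e : List.replicate n false = List.replicate ((n - 1) + 1) false := by rw [← this]
        rw [e, List.replicate_succ]
        rfl
      · rw [npts_append, npts_eq, m, count_false, hz]
        rfl
    · have hl1 : 1 ≤ (v1.filter (fun x => decide (x < n))).length := by
        rw [Nat.one_le_iff_ne_zero, Ne, List.length_eq_zero_iff]
        exact hz
      refine ⟨(w, (v1.filter (fun x => decide (x < n))).length, s), hl1, by simp only; omega, r,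
        q.ne_nil hz, ?_, ?_, ?_⟩
      · rw [List.filter_append, hv2f, List.take_left]
        exact q
      · rw [List.map_append, map_all_lt hv2, m]
        congr 2
        simp only
        omega
      · rw [npts_eq, m, count_false]

theorem next_inC {t : Forest} {n : ℕ} {v : List ℕ} (h : InC t n v) {w : List Letter} {l : ℕ}
    {s : List Forest} (hph : Phase t n v w l s) :
    InC (mk s) (n - l) (anti n (v.filter (fun x => decide (x < n)))) := by
  obtain ⟨hp, hav, ht⟩ := h
  obtain ⟨hl1, hl2, hr, hs, hst, hm, hnp⟩ := hph
  have hfr := filter_range hp
  have hlen : (v.filter (fun x => decide (x < n))).length = n := by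
    rw [hfr.length_eq, List.length_range]
  refine ⟨?_, ?_, ?_⟩
  · have h1 : (mk s).size = l := by
      rw [← hst.mk.length, List.length_take, hlen]
      omega
    rw [h1]
    have : l + (n - l) = n := by omega
    rw [this]
    exact anti_perm hfr
  · exact anti_av hfr (hav.sublist List.filter_sublist)
  · exact anti_filter hfr hl2 hst

theorem encode (n : ℕ) : ∀ t : Forest, ∃ e : List ℕ → List Letter,
    (∀ v, InC t n v → Good t n (e v)) ∧
      (∀ v v', InC t n v → InC t n v' → e v = e v' → v = v') := by
  induction n using Nat.strong_induction_on with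
  | _ n IH =>
    intro t
    rcases Nat.eq_zero_or_pos n with hn | hn
    · subst hn
      refine ⟨fun _ => [], fun v _ => Or.inl ⟨rfl, rfl⟩, ?_⟩
      intro v v' h h' _
      have e1 : ∀ v : List ℕ, v.filter (fun x => decide (0 ≤ x)) = v := by
        intro v
        rw [List.filter_eq_self]
        intro x _
        simp
      have t1 := h.2.2
      have t2 := h'.2.2
      rw [e1] at t1 t2
      exact t1.unique t2 (h.1.trans h'.1.symm)
    · choose! E hE using IH
      have hex : ∀ v, InC t n v → ∃ d : List Letter × ℕ × List Forest,
          Phase t n v d.1 d.2.1 d.2.2 := fun v hv => phase_exists hn hv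
      choose! D hD using hex
      refine ⟨fun v => (D v).1 ++ Letter.cut ::
        E (n - (D v).2.1) (mk (D v).2.2) (anti n (v.filter (fun x => decide (x < n)))), ?_, ?_⟩
      · intro v hv
        refine Or.inr ⟨hn, ?_⟩
        have hd := hD v hv
        have hnx := next_inC hv hd
        obtain ⟨hl1, hl2, hr, hs, hst, hm, hnp⟩ := hd
        have hg := (hE (n - (D v).2.1) (by omega) (mk (D v).2.2)).1 _ hnx
        have hacc : Acc [(Forest.nil, (D v).2.2)] (n - (D v).2.1) (Letter.cut ::
            E (n - (D v).2.1) (mk (D v).2.2) (anti n (v.filter (fun x => decide (x < n))))) := by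
          rcases hg with ⟨h0, h1⟩ | ⟨h0, h1⟩
          · rw [h1, h0]
            exact Acc.cut0 hs
          · obtain ⟨k, hk⟩ : ∃ k, n - (D v).2.1 = k + 1 := ⟨n - (D v).2.1 - 1, by omega⟩
            rw [hk] at h1 ⊢
            exact Acc.cut hs h1
        have := hr.acc hacc
        rw [hnp] at this
        have e : (D v).2.1 + (n - (D v).2.1) = n := by omega
        rw [e] at this
        exact this
      · intro v v' hv hv' heq
        have hd := hD v hv
        have hd' := hD v' hv'
        have hnx := next_inC hv hd
        have hnx' := next_inC hv' hd'
        obtain ⟨hl1, hl2, hr, hs, hst, hm, hnp⟩ := hd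
        obtain ⟨hl1', hl2', hr', hs', hst', hm', hnp'⟩ := hd'
        obtain ⟨c1, c2⟩ := cut_split hr.noCut hr'.noCut heq
        have c3 : (D v).2.1 = (D v').2.1 := by rw [← hnp, ← hnp', c1]
        have c4 : (D v).2.2 = (D v').2.2 := by
          rw [← c1] at hr'
          have := hr.det hr'
          simpa using this
        rw [← c3, ← c4] at c2 hnx'
        have c5 := (hE (n - (D v).2.1) (by omega) (mk (D v).2.2)).2 _ _ hnx hnx' c2
        have c6 := anti_inj (filter_range hv.1) (filter_range hv'.1) c5
        have c7 : v.map (fun x => decide (n ≤ x)) = v'.map (fun x => decide (n ≤ x)) := by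
          rw [hm, hm', c1, c3]
        have c8 : v.filter (fun x => decide (n ≤ x)) = v'.filter (fun x => decide (n ≤ x)) :=
          hv.2.2.unique hv'.2.2 ((hv.1.trans hv'.1.symm).filter _)
        exact recon c7 c8 c6

end H98Av
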