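import Pool.Agent.Lib.MP_b8e197_co.H98.Encode
import Pool.Agent.Lib.MP_b8e197_co.H98.Codes

namespace H98Av

open List

/-- Avoidance of 1324 for a permutation. -/
def AvPerm {n : ℕ} (π : Equiv.Perm (Fin n)) : Prop :=
  ∀ i j k l : Fin n, i < j → j < k → k < l → ¬ (π i < π k ∧ π k < π j ∧ π j < π l)

/-- The list of values. -/
def toL {n : ℕ} (π : Equiv.Perm (Fin n)) : List ℕ := (List.finRange n).map (fun i => (π i : ℕ))

theorem toL_inj {n : ℕ} {π σ : Equiv.Perm (Fin n)} (h : toL π = toL σ) : π = σ := by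
  ext i
  unfold toL at h
  rw [List.map_inj_left] at h
  exact h i (List.mem_finRange i)

theorem toL_inC {n : ℕ} {π : Equiv.Perm (Fin n)} (h : AvPerm π) :
    InC Forest.nil n (toL π) := by
  have hnd : (toL π).Nodup := by
    unfold toL
    refine List.Nodup.map ?_ (List.nodup_finRange n)
    intro a b hab
    exact π.injective (Fin.ext hab)
  have hmem : ∀ a, a ∈ toL π ↔ a < n := by
    intro a
    unfold toL
    rw [List.mem_map]
    constructor
    · rintro ⟨i, _, rfl⟩
      exact (π i).isLt
    · intro ha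
      exact ⟨π.symm ⟨a, ha⟩, List.mem_finRange _, by simp⟩
  refine ⟨?_, ?_, ?_⟩
  · rw [List.perm_ext_iff_of_nodup hnd List.nodup_range]
    intro a
    rw [hmem, List.mem_range]
    simp [Forest.size]
  · intro a b c d hs hh
    unfold toL at hs
    rw [List.sublist_map_iff] at hs
    obtain ⟨l', hl', he⟩ := hs
    match l', he with
    | [], he => simp at he
    | [p1], he => simp at he
    | [p1, p2], he => simp at he
    | [p1, p2, p3], he => simp at he
    | [p1, p2, p3, p4], he =>
      simp only [List.map_cons, List.map_nil, List.cons.injEq, and_true] at he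
      obtain ⟨rfl, rfl, rfl, rfl⟩ := he
      have hpw := (List.pairwise_lt_finRange n).sublist hl'
      simp only [List.pairwise_cons, List.mem_cons, List.not_mem_nil, or_false,
        forall_eq_or_imp, forall_eq, IsEmpty.forall_iff, implies_true, List.Pairwise.nil,
        and_true] at hpw
      obtain ⟨⟨h12, h13, h14⟩, ⟨h23, h24⟩, h34⟩ := hpw
      exact h p1 p2 p3 p4 h12 h23 h34 ⟨hh.1, hh.2.1, hh.2.2⟩
  · rw [List.filter_eq_nil_iff.mpr]
    · exact TopList.nil
    · intro a ha
      rw [hmem] at ha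
      simpa using ha

theorem card_bound {z : ℝ} (hz : 0 ≤ z) (F : List Block → ℝ) (hF : ∀ Z, 0 ≤ F Z)
    (h1 : z * F [(Forest.nil, [Forest.nil])] ≤ F [(Forest.nil, [])])
    (h2 : ∀ s, s ≠ [] → 1 ≤ F [(Forest.nil, s)])
    (h3 : ∀ s, s ≠ [] → F [(mk s, [])] ≤ F [(Forest.nil, s)])
    (h4 : ∀ L R s Z, z * (∑ j ∈ Finset.range (s.length + 1),
      F ((Forest.cons L R, mk (s.take j) :: s.drop j) :: Z)) + F (adv L R s Z) ≤
        F ((Forest.cons L R, s) :: Z)) {n : ℕ} (hn : 1 ≤ n) :
    (Nat.card {π : Equiv.Perm (Fin n) // AvPerm π} : ℝ) * z ^ n ≤ F [(Forest.nil, [])] := by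
  classical
  obtain ⟨e, he1, he2⟩ := encode n Forest.nil
  let W : Finset (List Letter) := Finset.univ.image
    (fun π : {π : Equiv.Perm (Fin n) // AvPerm π} => e (toL π.1))
  have hcard : W.card = Nat.card {π : Equiv.Perm (Fin n) // AvPerm π} := by
    rw [Finset.card_image_of_injective, Finset.card_univ, Nat.card_eq_fintype_card]
    intro a b hab
    have := he2 _ _ (toL_inC a.2) (toL_inC b.2) hab
    exact Subtype.ext (toL_inj this)
  have hsub : W ⊆ codes (W.sup List.length) [(Forest.nil, [])] n := by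
    intro w hw
    have hlen : w.length ≤ W.sup List.length := Finset.le_sup (f := List.length) hw
    rw [Finset.mem_image] at hw
    obtain ⟨a, _, rfl⟩ := hw
    rcases he1 _ (toL_inC a.2) with ⟨h0, _⟩ | ⟨_, hacc⟩
    · omega
    · exact hacc.mem_codes _ hlen
  have h5 := codes_bound hz F hF h1 h2 h3 h4 (W.sup List.length) [(Forest.nil, [])] n
  refine le_trans ?_ h5
  rw [← hcard]
  apply mul_le_mul_of_nonneg_right _ (pow_nonneg hz n)
  exact_mod_cast Finset.card_le_card hsub

end H98Av
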