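import Pool.Agent.Lib.MP_b8e197_co.H98.Bound

namespace H98Av

/-- The chosen parameters. -/
noncomputable def prm : Prm where
  z := 20 / 257
  A := 23343 / 10000
  W0 := 149 / 100
  W2 := 10118 / 10000
  r := { x := 15959 / 10900, y := 367 / 218, t := 10749 / 10000, v := 109 / 50
         μ := 8004635041813 / 14006500000000, k := 367 / 1285 }
  h := { x := 48314 / 43255, y := 10141 / 8651, t := 20781 / 20000, v := 8651 / 1000
         μ := 55583235960631 / 55582675000000, k := 10141 / 12850 }
  e := { x := 48814 / 43755, y := 10241 / 8751, t := 831 / 800, v := 8751 / 1000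
         μ := 755275870477 / 749669000000, k := 10241 / 12850 }
  κ := 36189 / 100000
  b := 497763 / 10000
  d := 242269 / 5000

theorem prm_ok : prm.Ok where
  z0 := by norm_num [prm]
  A1 := by norm_num [prm]
  W01 := by norm_num [prm]
  W21 := by norm_num [prm]
  rO := by constructor <;> norm_num [prm]
  hO := by constructor <;> norm_num [prm]
  eO := by constructor <;> norm_num [prm]
  rh := by norm_num [prm]
  eh := by norm_num [prm]
  hh := by norm_num [prm]
  μh := by norm_num [prm]
  μe := by norm_num [prm]
  xrh := by norm_num [prm]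
  yrh := by norm_num [prm]
  trh := by norm_num [prm]
  xhe := by norm_num [prm]
  yhe := by norm_num [prm]
  the := by norm_num [prm]
  κ0 := by norm_num [prm]
  κ1 := by norm_num [prm]
  b0 := by norm_num [prm]
  d0 := by norm_num [prm]
  κk := by norm_num [prm]
  Aμ := by norm_num [prm]
  W0V := by norm_num [prm]
  W2Q := by norm_num [prm]
  Qk := by norm_num [prm]
  Qμ := by norm_num [prm]
  QV := by norm_num [prm]
  Q0 := by norm_num [prm]
  Qx := by norm_num [prm]
  Qy := by norm_num [prm]
  Qt := by norm_num [prm]
  fin := by norm_num [prm]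

theorem av_bound (n : ℕ) :
    (Nat.card {π : Equiv.Perm (Fin n) // AvPerm π} : ℝ) ≤ (257 / 20 : ℝ) ^ n := by
  rcases Nat.eq_zero_or_pos n with hn | hn
  · subst hn
    have : Nat.card {π : Equiv.Perm (Fin 0) // AvPerm π} ≤ 1 :=
      Finite.card_le_one_iff_subsingleton.mpr inferInstance
    simpa using this
  · have h := main_bound prm_ok hn
    have hz : prm.z = 20 / 257 := rfl
    rw [hz] at h
    have h1 : ((257 : ℝ) / 20) ^ n * ((20 : ℝ) / 257) ^ n = 1 := by
      rw [← mul_pow]; norm_num
    have h2 : (0 : ℝ) < ((20 : ℝ) / 257) ^ n := by positivity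
    refine le_of_mul_le_mul_right ?_ h2
    rw [h1]
    exact h

end H98Av
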