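import Pool.Agent.Lib.MP_b8e197_co.H98.Final

namespace H98Av

open Finset

/-- Node weight, by the children forest. -/
def cw (A W0 W2 : ℝ) : Forest → ℝ
  | Forest.nil => A
  | Forest.cons Forest.nil (Forest.cons _ _) => W2
  | Forest.cons Forest.nil Forest.nil => W0
  | Forest.cons (Forest.cons _ _) _ => W0

/-- Weight of a forest. -/
def wt (A W0 W2 : ℝ) : Forest → ℝ
  | Forest.nil => 1
  | Forest.cons L R => cw A W0 W2 L * wt A W0 W2 L * wt A W0 W2 R

/-- Weight of a stack. -/
def om (A W0 W2 : ℝ) : List Forest → ℝ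
  | [] => 1
  | f :: s => cw A W0 W2 f * wt A W0 W2 f * om A W0 W2 s

/-- Product functional. -/
def pp (x y : ℝ) : List Forest → ℝ
  | [] => 1
  | Forest.nil :: s => x * pp x y s
  | Forest.cons _ _ :: s => y * pp x y s

/-- Product functional with a factor for a leaf on top. -/
def ps (x y t : ℝ) : List Forest → ℝ
  | [] => 1
  | Forest.nil :: s => t * (x * pp x y s)
  | Forest.cons _ _ :: s => y * pp x y s

/-- The transfer of a functional. -/
def MT (z A W0 W2 : ℝ) (G : List Forest → ℝ) (s : List Forest) : ℝ :=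
  z * ∑ j ∈ range (s.length + 1), cw A W0 W2 (mk (s.take j)) * G (mk (s.take j) :: s.drop j)

section basic

variable {A W0 W2 : ℝ}

theorem wt_mkAux (s : List Forest) : ∀ acc : Forest,
    wt A W0 W2 (mkAux acc s) = wt A W0 W2 acc * om A W0 W2 s := by
  induction s with
  | nil => intro acc; simp [om]
  | cons f s ih =>
    intro acc
    rw [mkAux_cons, ih, wt, om]
    ring

theorem wt_mk (s : List Forest) : wt A W0 W2 (mk s) = om A W0 W2 s := by
  rw [mk, wt_mkAux, wt, one_mul]

theorem om_append (s s' : List Forest) :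
    om A W0 W2 (s ++ s') = om A W0 W2 s * om A W0 W2 s' := by
  induction s with
  | nil => simp [om]
  | cons f s ih => rw [List.cons_append, om, ih, om]; ring

theorem om_step (s : List Forest) (j : ℕ) :
    om A W0 W2 (mk (s.take j) :: s.drop j) = cw A W0 W2 (mk (s.take j)) * om A W0 W2 s := by
  rw [om, wt_mk, mul_assoc, ← om_append, List.take_append_drop]

theorem cw_pos (hA : 0 < A) (h0 : 0 < W0) (h2 : 0 < W2) (f : Forest) : 0 < cw A W0 W2 f := by
  match f with
  | Forest.nil => exact hA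
  | Forest.cons Forest.nil (Forest.cons _ _) => exact h2
  | Forest.cons Forest.nil Forest.nil => exact h0
  | Forest.cons (Forest.cons _ _) _ => exact h0

theorem wt_pos (hA : 0 < A) (h0 : 0 < W0) (h2 : 0 < W2) (f : Forest) : 0 < wt A W0 W2 f := by
  induction f with
  | nil => rw [wt]; exact one_pos
  | cons L R ihL ihR => rw [wt]; exact mul_pos (mul_pos (cw_pos hA h0 h2 L) ihL) ihR

theorem om_pos (hA : 0 < A) (h0 : 0 < W0) (h2 : 0 < W2) (s : List Forest) :
    0 < om A W0 W2 s := by
  induction s with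
  | nil => rw [om]; exact one_pos
  | cons f s ih => rw [om]; exact mul_pos (mul_pos (cw_pos hA h0 h2 f) (wt_pos hA h0 h2 f)) ih

theorem cw_one (hA : 1 ≤ A) (h0 : 1 ≤ W0) (h2 : 1 ≤ W2) (f : Forest) : 1 ≤ cw A W0 W2 f := by
  match f with
  | Forest.nil => exact hA
  | Forest.cons Forest.nil (Forest.cons _ _) => exact h2
  | Forest.cons Forest.nil Forest.nil => exact h0
  | Forest.cons (Forest.cons _ _) _ => exact h0

theorem wt_one (hA : 1 ≤ A) (h0 : 1 ≤ W0) (h2 : 1 ≤ W2) (f : Forest) : 1 ≤ wt A W0 W2 f := by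
  induction f with
  | nil => rw [wt]
  | cons L R ihL ihR =>
    rw [wt]
    exact one_le_mul_of_one_le_of_one_le
      (one_le_mul_of_one_le_of_one_le (cw_one hA h0 h2 L) ihL) ihR

theorem om_one (hA : 1 ≤ A) (h0 : 1 ≤ W0) (h2 : 1 ≤ W2) (s : List Forest) :
    1 ≤ om A W0 W2 s := by
  induction s with
  | nil => rw [om]
  | cons f s ih =>
    rw [om]
    exact one_le_mul_of_one_le_of_one_le
      (one_le_mul_of_one_le_of_one_le (cw_one hA h0 h2 f) (wt_one hA h0 h2 f)) ih

theorem MT_lin (z a b : ℝ) (G H : List Forest → ℝ) (s : List Forest) :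
    MT z A W0 W2 (fun s => a * G s + b * H s) s =
      a * MT z A W0 W2 G s + b * MT z A W0 W2 H s := by
  unfold MT
  rw [Finset.mul_sum, Finset.mul_sum, Finset.mul_sum, Finset.mul_sum, Finset.mul_sum,
    ← Finset.sum_add_distrib]
  apply Finset.sum_congr rfl
  intro j _
  ring

theorem sum_aux {x y v : ℝ} (hx : x * v = W2 + v) (hy : y * v = W0 + v) (s : List Forest) :
    ∀ a b : Forest, ∑ j ∈ range (s.length + 1),
      cw A W0 W2 (mkAux (Forest.cons a b) (s.take j)) * pp x y (s.drop j) =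
        cw A W0 W2 (Forest.cons a b) * pp x y s + v * (pp x y s - 1) := by
  induction s with
  | nil => intro a b; simp [pp]
  | cons f s ih =>
    intro a b
    rw [List.length_cons, Finset.sum_range_succ']
    simp only [List.take_succ_cons, List.drop_succ_cons, mkAux_cons, List.take_zero,
      List.drop_zero, mkAux_nil]
    rw [ih]
    cases f with
    | nil =>
      rw [pp, cw]
      linear_combination (-(pp x y s)) * hx
    | cons f1 f2 =>
      rw [pp, cw]
      linear_combination (-(pp x y s)) * hy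

theorem MT_ps_nil (z x y t : ℝ) : MT z A W0 W2 (ps x y t) [] = z * A * t * x := by
  simp [MT, cw, ps, pp]
  ring

theorem ps_mkAux (x y t : ℝ) (a b : Forest) (s s' : List Forest) :
    ps x y t (mkAux (Forest.cons a b) s :: s') = y * pp x y s' := by
  induction s generalizing a b with
  | nil => rfl
  | cons f s ih => rw [mkAux_cons, ih]

theorem MT_ps_cons {z x y t v : ℝ} (hx : x * v = W2 + v) (hy : y * v = W0 + v) (f : Forest)
    (s : List Forest) : MT z A W0 W2 (ps x y t) (f :: s) =
      z * A * t * x * pp x y (f :: s) + z * y * (W0 * pp x y s + v * (pp x y s - 1)) := by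
  unfold MT
  rw [List.length_cons, Finset.sum_range_succ']
  simp only [List.take_succ_cons, List.drop_succ_cons, List.take_zero, List.drop_zero, mk,
    mkAux_cons, mkAux_nil, ps_mkAux]
  have h1 : ∑ j ∈ range (s.length + 1), cw A W0 W2 (mkAux (Forest.cons f Forest.nil) (s.take j)) *
      (y * pp x y (s.drop j)) = y * (W0 * pp x y s + v * (pp x y s - 1)) := by
    have h2 := sum_aux (A := A) hx hy s f Forest.nil
    have h3 : cw A W0 W2 (Forest.cons f Forest.nil) = W0 := by cases f <;> rfl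
    rw [h3] at h2
    rw [← h2, Finset.mul_sum]
    apply Finset.sum_congr rfl
    intro j _
    ring
  rw [h1]
  simp only [cw, ps]
  ring

theorem pp_one {x y : ℝ} (hx : 1 ≤ x) (hy : 1 ≤ y) (s : List Forest) : 1 ≤ pp x y s := by
  induction s with
  | nil => rw [pp]
  | cons f s ih =>
    cases f with
    | nil => rw [pp]; exact one_le_mul_of_one_le_of_one_le hx ih
    | cons _ _ => rw [pp]; exact one_le_mul_of_one_le_of_one_le hy ih

theorem ps_one {x y t : ℝ} (hx : 1 ≤ x) (hy : 1 ≤ y) (ht : 1 ≤ t) (s : List Forest) :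
    1 ≤ ps x y t s := by
  cases s with
  | nil => rw [ps]
  | cons f s =>
    have := pp_one hx hy s
    cases f with
    | nil =>
      rw [ps]
      exact one_le_mul_of_one_le_of_one_le ht (one_le_mul_of_one_le_of_one_le hx this)
    | cons _ _ => rw [ps]; exact one_le_mul_of_one_le_of_one_le hy this

theorem pp_append (x y : ℝ) (s s' : List Forest) : pp x y (s ++ s') = pp x y s * pp x y s' := by
  induction s with
  | nil => simp [pp]
  | cons f s ih =>
    cases f with
    | nil => rw [List.cons_append, pp, ih, pp]; ring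
    | cons _ _ => rw [List.cons_append, pp, ih, pp]; ring

theorem pp_le_ps {x y t : ℝ} (hx : 1 ≤ x) (hy : 1 ≤ y) (ht : 1 ≤ t) (s : List Forest) :
    pp x y s ≤ ps x y t s := by
  cases s with
  | nil => rw [ps, pp]
  | cons f s =>
    have := pp_one hx hy s
    cases f with
    | nil =>
      rw [ps, pp]
      exact le_mul_of_one_le_left (by positivity) ht
    | cons _ _ => rw [ps, pp]

theorem ps_append {x y t : ℝ} (hx : 1 ≤ x) (hy : 1 ≤ y) (ht : 1 ≤ t) (s s' : List Forest) :
    ps x y t (s ++ s') ≤ ps x y t s * ps x y t s' := by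
  cases s with
  | nil => simp [ps]
  | cons f s =>
    have h1 := pp_one hx hy s
    have h2 := pp_le_ps hx hy ht s'
    cases f with
    | nil =>
      rw [List.cons_append, ps, ps, pp_append]
      calc t * (x * (pp x y s * pp x y s')) = (t * (x * pp x y s)) * pp x y s' := by ring
        _ ≤ _ := mul_le_mul_of_nonneg_left h2 (by positivity)
    | cons _ _ =>
      rw [List.cons_append, ps, ps, pp_append]
      calc y * (pp x y s * pp x y s') = (y * pp x y s) * pp x y s' := by ring
        _ ≤ _ := mul_le_mul_of_nonneg_left h2 (by positivity)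

theorem pp_mono {x y x' y' : ℝ} (hx : 1 ≤ x) (hy : 1 ≤ y) (hxx : x ≤ x') (hyy : y ≤ y')
    (s : List Forest) : pp x y s ≤ pp x' y' s := by
  induction s with
  | nil => rw [pp, pp]
  | cons f s ih =>
    have := pp_one hx hy s
    cases f with
    | nil => rw [pp, pp]; exact mul_le_mul hxx ih (by positivity) (by linarith)
    | cons _ _ => rw [pp, pp]; exact mul_le_mul hyy ih (by positivity) (by linarith)

theorem ps_mono {x y t x' y' t' : ℝ} (hx : 1 ≤ x) (hy : 1 ≤ y) (ht : 1 ≤ t) (hxx : x ≤ x')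
    (hyy : y ≤ y') (htt : t * x ≤ t' * x')
    (s : List Forest) : ps x y t s ≤ ps x' y' t' s := by
  cases s with
  | nil => rw [ps, ps]
  | cons f s =>
    have h1 := pp_one hx hy s
    have h2 := pp_mono hx hy hxx hyy s
    cases f with
    | nil =>
      rw [ps, ps, ← mul_assoc, ← mul_assoc]
      have : 0 ≤ t * x := by positivity
      exact mul_le_mul htt h2 (by positivity) (this.trans htt)
    | cons _ _ => rw [ps, ps]; exact mul_le_mul hyy h2 (by positivity) (by linarith)

/-- Upper transfer bound. -/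
theorem MT_ps_le {z x y t v μ k : ℝ} (hx : x * v = W2 + v) (hy : y * v = W0 + v)
    (hx1 : 1 ≤ x) (hy1 : 1 ≤ y) (hμ : μ = z * A * x * t + z * y * v) (hk : k = z * y * v)
    (hh : z * A * t * x * x + z * y * (W0 + v) ≤ μ * (t * x)) (s : List Forest) :
    MT z A W0 W2 (ps x y t) s ≤ μ * ps x y t s - k := by
  cases s with
  | nil => rw [MT_ps_nil, ps, hμ, hk]; apply le_of_eq; ring
  | cons f s =>
    rw [MT_ps_cons hx hy]
    have hp := pp_one hx1 hy1 s
    cases f with
    | nil =>
      rw [pp, ps, hk]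
      have := mul_le_mul_of_nonneg_right hh (by positivity : (0:ℝ) ≤ pp x y s)
      linarith
    | cons _ _ =>
      rw [pp, ps, hμ, hk]
      apply le_of_eq
      linear_combination (-(z * y * pp x y s)) * hy

/-- Lower transfer bound. -/
theorem MT_ps_ge {z x y t v μ k : ℝ} (hx : x * v = W2 + v) (hy : y * v = W0 + v)
    (hx1 : 1 ≤ x) (hy1 : 1 ≤ y) (hμ : μ = z * A * x * t + z * y * v) (hk : k = z * y * v)
    (hh : μ * (t * x) ≤ z * A * t * x * x + z * y * (W0 + v)) (s : List Forest) :
    μ * ps x y t s - k ≤ MT z A W0 W2 (ps x y t) s := by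
  cases s with
  | nil => rw [MT_ps_nil, ps, hμ, hk]; apply le_of_eq; ring
  | cons f s =>
    rw [MT_ps_cons hx hy]
    have hp := pp_one hx1 hy1 s
    cases f with
    | nil =>
      rw [pp, ps, hk]
      have := mul_le_mul_of_nonneg_right hh (by positivity : (0:ℝ) ≤ pp x y s)
      linarith
    | cons _ _ =>
      rw [pp, ps, hμ, hk]
      apply le_of_eq
      linear_combination (z * y * pp x y s) * hy

/-- Nonnegativity of a combination of three product functionals. -/
theorem pp_comb {x1 y1 x2 y2 x3 y3 a b d : ℝ} (hx3 : 1 ≤ x3)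
    (hy3 : 1 ≤ y3) (h31 : x3 ≤ x1) (h31' : y3 ≤ y1) (h21 : x2 ≤ x1) (h21' : y2 ≤ y1)
    (hx2 : 0 ≤ x2) (hy2 : 0 ≤ y2)
    (ha : 0 ≤ a) (h0 : 0 ≤ a - b + d) (hx : d * (x2 - x3) ≤ a * (x1 - x2))
    (hy : d * (y2 - y3) ≤ a * (y1 - y2)) (s : List Forest) :
    0 ≤ a * pp x1 y1 s - b * pp x2 y2 s + d * pp x3 y3 s := by
  induction s with
  | nil => simpa [pp] using h0
  | cons f s ih =>
    have p13 := pp_mono hx3 hy3 h31 h31' s
    have p3 := pp_one hx3 hy3 s
    cases f with
    | nil =>
      rw [pp, pp, pp]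
      have e1 := mul_nonneg hx2 ih
      have e2 := mul_le_mul_of_nonneg_right hx (by positivity : (0:ℝ) ≤ pp x3 y3 s)
      have e3 := mul_le_mul_of_nonneg_left p13 (mul_nonneg ha (sub_nonneg.mpr h21))
      nlinarith
    | cons _ _ =>
      rw [pp, pp, pp]
      have e1 := mul_nonneg hy2 ih
      have e2 := mul_le_mul_of_nonneg_right hy (by positivity : (0:ℝ) ≤ pp x3 y3 s)
      have e3 := mul_le_mul_of_nonneg_left p13 (mul_nonneg ha (sub_nonneg.mpr h21'))
      nlinarith

theorem ps_comb {x1 y1 t1 x2 y2 t2 x3 y3 t3 a b d : ℝ}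
    (hx3 : 1 ≤ x3) (hy3 : 1 ≤ y3) (h31 : x3 ≤ x1) (h31' : y3 ≤ y1) (h21 : x2 ≤ x1)
    (h21' : y2 ≤ y1) (hx2 : 0 ≤ x2) (hy2 : 0 ≤ y2) (ht2 : 0 ≤ t2) (htx : t2 * x2 ≤ t1 * x1)
    (ha : 0 ≤ a) (h0 : 0 ≤ a - b + d) (hx : d * (x2 - x3) ≤ a * (x1 - x2))
    (hy : d * (y2 - y3) ≤ a * (y1 - y2))
    (ht : d * (t2 * x2 - t3 * x3) ≤ a * (t1 * x1 - t2 * x2)) (s : List Forest) :
    0 ≤ a * ps x1 y1 t1 s - b * ps x2 y2 t2 s + d * ps x3 y3 t3 s := by
  cases s with
  | nil => simpa [ps] using h0
  | cons f s =>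
    have ih := pp_comb hx3 hy3 h31 h31' h21 h21' hx2 hy2 ha h0 hx hy s
    have p13 := pp_mono hx3 hy3 h31 h31' s
    have p3 := pp_one hx3 hy3 s
    cases f with
    | nil =>
      rw [ps, ps, ps]
      have e1 := mul_nonneg (mul_nonneg ht2 hx2) ih
      have e2 := mul_le_mul_of_nonneg_right ht (by positivity : (0:ℝ) ≤ pp x3 y3 s)
      have e3 := mul_le_mul_of_nonneg_left p13 (mul_nonneg ha (sub_nonneg.mpr htx))
      nlinarith
    | cons _ _ =>
      rw [ps, ps, ps]
      have e1 := mul_nonneg hy2 ih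
      have e2 := mul_le_mul_of_nonneg_right hy (by positivity : (0:ℝ) ≤ pp x3 y3 s)
      have e3 := mul_le_mul_of_nonneg_left p13 (mul_nonneg ha (sub_nonneg.mpr h21'))
      nlinarith

end basic

end H98Av
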