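import Pool.Agent.Lib.MP_b8e197_co.H98.Anti

namespace H98Av

open List

theorem Run.trans {Z Z' Z'' : List Block} {w w' : List Letter} (h : Run Z w Z')
    (h' : Run Z' w' Z'') : Run Z (w ++ w') Z'' := by
  induction h with
  | nil Z => simpa using h'
  | pt j hj h ih => exact Run.pt j hj (ih h')
  | ptf h ih => exact Run.ptf (ih h')
  | top h ih => exact Run.top (ih h')

theorem Run.noCut {Z Z' : List Block} {w : List Letter} (h : Run Z w Z') : NoCut w := by
  induction h with
  | nil Z => trivial
  | pt j hj h ih => exact ih
  | ptf h ih => exact ih
  | top h ih => exact ih

theorem Run.det {Z Z' : List Block} {w : List Letter} (h : Run Z w Z') :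
    ∀ {Z'' : List Block}, Run Z w Z'' → Z' = Z'' := by
  induction h with
  | nil Z => intro Z'' h'; cases h'; rfl
  | pt j hj h ih => intro Z'' h'; cases h' with
    | pt _ _ h' => exact ih h'
  | ptf h ih => intro Z'' h'; cases h' with
    | ptf h' => exact ih h'
  | top h ih => intro Z'' h'; cases h' with
    | top h' => exact ih h'

theorem mask_append (w w' : List Letter) : mask (w ++ w') = mask w ++ mask w' := by
  induction w with
  | nil => rfl
  | cons a w ih => cases a <;> simp [mask, ih]

theorem npts_append (w w' : List Letter) : npts (w ++ w') = npts w + npts w' := by
  induction w with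
  | nil => simp [npts]
  | cons a w ih => cases a <;> (simp [npts, ih]; try omega)

theorem npts_eq (w : List Letter) : npts w = (mask w).count false := by
  induction w with
  | nil => rfl
  | cons a w ih => cases a <;> simp [mask, npts, ih]

/-- every nonempty suffix contains a top point -/
def EndsT (n : ℕ) (v : List ℕ) : Prop :=
  ∀ x y : List ℕ, v = x ++ y → y ≠ [] → ∃ d ∈ y, n ≤ d

theorem EndsT.suffix {n : ℕ} {x y : List ℕ} (h : EndsT n (x ++ y)) : EndsT n y := by
  intro a b hab hb
  exact h (x ++ a) b (by rw [hab, List.append_assoc]) hb

theorem scan_pts (n : ℕ) (b : List ℕ) : ∀ (s : List Forest) (u : List ℕ), StackList s u →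
    (∀ x ∈ b, x < n) → Av132 (u ++ b) → (u ++ b).Nodup → ∀ (L R : Forest) (Z : List Block),
    ∃ w s', Run ((Forest.cons L R, s) :: Z) w ((Forest.cons L R, s') :: Z) ∧
      StackList s' (u ++ b) ∧ mask w = b.map (fun x => decide (n ≤ x)) := by
  induction b with
  | nil =>
    intro s u hs _ _ _ L R Z
    exact ⟨[], s, Run.nil _, by simpa using hs, rfl⟩
  | cons q b ih =>
    intro s u hs hb hav hnd L R Z
    have hq : q ∉ u := by
      intro hq
      rw [List.nodup_append] at hnd
      exact hnd.2.2 q hq q (by simp) rfl
    have hav' : Av132 (u ++ [q]) := hav.sublist (by
      apply List.Sublist.append_left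
      simp)
    obtain ⟨j, hj, hs'⟩ := hs.step q hq hav'
    have e : u ++ q :: b = (u ++ [q]) ++ b := by simp
    rw [e] at hav hnd
    obtain ⟨w, s', h1, h2, h3⟩ := ih _ _ hs' (fun x hx => hb x (by simp [hx])) hav hnd L R Z
    refine ⟨Letter.pt j :: w, s', Run.pt j hj h1, by rw [e]; exact h2, ?_⟩
    have hqn : ¬ n ≤ q := by
      have := hb q (by simp)
      omega
    simp [mask, h3, hqn]

theorem filter_split {n : ℕ} {v a b : List ℕ} (ha : a ≠ [])
    (h : v.filter (fun x => decide (n ≤ x)) = a ++ b) :
    ∃ v1 v2, v = v1 ++ v2 ∧ v1.filter (fun x => decide (n ≤ x)) = a ∧
      v2.filter (fun x => decide (n ≤ x)) = b ∧ EndsT n v1 := by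
  induction v generalizing a with
  | nil =>
    simp only [List.filter_nil] at h
    have := List.append_eq_nil_iff.mp h.symm
    exact absurd this.1 ha
  | cons c v ih =>
    by_cases hc : n ≤ c
    · have hc' : (c :: v).filter (fun x => decide (n ≤ x)) =
          c :: v.filter (fun x => decide (n ≤ x)) := by simp [hc]
      rw [hc'] at h
      cases a with
      | nil => exact absurd rfl ha
      | cons c' a =>
        rw [List.cons_append, List.cons.injEq] at h
        obtain ⟨rfl, h⟩ := h
        by_cases ha' : a = []
        · subst ha'
          refine ⟨[c], v, rfl, by simp [hc], by simpa using h, ?_⟩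
          intro x y hxy hy
          have : c ∈ y := by
            have h1 := congrArg List.length hxy
            simp only [List.length_cons, List.length_nil, List.length_append] at h1
            have h2 : y.length ≠ 0 := by
              rw [Ne, List.length_eq_zero_iff]; exact hy
            have h3 : x.length = 0 := by omega
            rw [List.length_eq_zero_iff] at h3
            subst h3
            simp at hxy
            simp [← hxy]
          exact ⟨c, this, hc⟩
        · obtain ⟨v1, v2, rfl, g1, g2, g3⟩ := ih ha' h
          refine ⟨c :: v1, v2, rfl, by simp [hc, g1], g2, ?_⟩
          intro x y hxy hy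
          cases x with
          | nil =>
            simp only [List.nil_append] at hxy
            exact ⟨c, by simp [← hxy], hc⟩
          | cons x0 x =>
            rw [List.cons_append, List.cons.injEq] at hxy
            exact g3 x y hxy.2 hy
    · have hc' : (c :: v).filter (fun x => decide (n ≤ x)) =
          v.filter (fun x => decide (n ≤ x)) := by simp [hc]
      rw [hc'] at h
      obtain ⟨v1, v2, rfl, g1, g2, g3⟩ := ih ha h
      refine ⟨c :: v1, v2, rfl, by simp [hc, g1], g2, ?_⟩
      intro x y hxy hy
      cases x with
      | nil =>
        simp only [List.nil_append] at hxy
        have : v1 ≠ [] := by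
          rintro rfl
          simp only [List.filter_nil] at g1
          exact ha g1.symm
        obtain ⟨d, hd, hd'⟩ := g3 [] v1 rfl this
        exact ⟨d, by simp [← hxy, hd], hd'⟩
      | cons x0 x =>
        rw [List.cons_append, List.cons.injEq] at hxy
        exact g3 x y hxy.2 hy

theorem filter_lt_eq {n : ℕ} {b : List ℕ} (h : ∀ x ∈ b, x < n) :
    b.filter (fun x => decide (x < n)) = b := by
  rw [List.filter_eq_self]
  intro x hx
  simpa using h x hx

theorem scan_seg (n : ℕ) : ∀ (t : Forest), t ≠ Forest.nil →
    ∀ (v u : List ℕ) (s : List Forest) (Z : List Block),
    TopList t (v.filter (fun x => decide (n ≤ x))) → EndsT n v → Av1324 (u ++ v) →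
    (u ++ v).Nodup → (∀ x ∈ u, x < n) → StackList s u →
    ∃ w s', Run ((t, s) :: Z) w (close Z Forest.nil s') ∧
      StackList s' (u ++ v.filter (fun x => decide (x < n))) ∧
      mask w = v.map (fun x => decide (n ≤ x)) := by
  intro t
  induction t with
  | nil => intro h; exact absurd rfl h
  | cons L R ihL ihR =>
    intro _ v u s Z ht he hav hnd hu hs
    generalize hf : v.filter (fun x => decide (n ≤ x)) = f at ht
    cases ht with
    | @cons _ _ vL vR M hL hR h1 h2 =>
      rw [List.filter_eq_cons_iff] at hf
      obtain ⟨b, v', rfl, hb, hM, hv'⟩ := hf
      simp only [decide_eq_true_eq, not_le] at hb hM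
      -- scan the points before M
      have hav1 : Av132 (u ++ b) := by
        refine Av132.of_append (d := M) (hav.sublist ?_) ?_
        · rw [List.append_assoc]
          apply List.Sublist.append_left
          apply List.Sublist.append_left
          simp
        · intro y hy
          rw [List.mem_append] at hy
          rcases hy with hy | hy
          · exact (hu y hy).trans_le hM
          · exact (hb y hy).trans_le hM
      have hnd1 : (u ++ b).Nodup := hnd.sublist (by
        apply List.Sublist.append_left
        simp)
      obtain ⟨w1, s1, r1, q1, m1⟩ := scan_pts n b s u hs hb hav1 hnd1 L R Z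
      have hub : ∀ x ∈ u ++ b, x < n := by
        intro y hy
        rw [List.mem_append] at hy
        rcases hy with hy | hy
        · exact hu y hy
        · exact hb y hy
      have eav : Av1324 ((u ++ b) ++ v') := hav.sublist (by
        rw [List.append_assoc]
        apply List.Sublist.append_left
        apply List.Sublist.append_left
        simp)
      have end' : ((u ++ b) ++ v').Nodup := hnd.sublist (by
        rw [List.append_assoc]
        apply List.Sublist.append_left
        apply List.Sublist.append_left
        simp)
      have ee : EndsT n v' := by
        have : EndsT n ((b ++ [M]) ++ v') := by simpa using he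
        exact this.suffix
      have hMm : (decide (n ≤ M)) = true := by simpa using hM
      have hMm' : (decide (M < n)) = false := by simp [hM]
      by_cases hLn : L = Forest.nil
      · subst hLn
        have hvL : vL = [] := by cases hL; rfl
        subst hvL
        rw [List.nil_append] at hv'
        by_cases hRn : R = Forest.nil
        · subst hRn
          have hvR : vR = [] := by cases hR; rfl
          subst hvR
          have hv'' : v' = [] := by
            by_contra hne
            obtain ⟨d, hd, hd'⟩ := ee [] v' rfl hne
            have : d ∈ v'.filter (fun x => decide (n ≤ x)) := by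
              rw [List.mem_filter]; exact ⟨hd, by simpa using hd'⟩
            rw [hv'] at this
            simp at this
          subst hv''
          refine ⟨w1 ++ [Letter.top], s1, r1.trans (Run.top (Run.nil _)), ?_, ?_⟩
          · rw [List.filter_append, filter_lt_eq hb]
            simp only [List.filter_cons, hMm', List.filter_nil]
            simpa using q1
          · rw [mask_append, m1]
            simp [mask, hM]
        · obtain ⟨w2, s2, r2, q2, m2⟩ := ihR hRn v' (u ++ b) s1 Z (by rw [hv']; exact hR)
            ee eav end' hub q1
          refine ⟨w1 ++ Letter.top :: w2, s2, r1.trans (Run.top ?_), ?_, ?_⟩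
          · have : adv Forest.nil R s1 Z = (R, s1) :: Z := by
              cases R with
              | nil => exact absurd rfl hRn
              | cons a b => cases Z <;> rfl
            rw [this]
            exact r2
          · rw [List.filter_append, filter_lt_eq hb]
            simp only [List.filter_cons, hMm']
            simpa [List.append_assoc] using q2
          · rw [mask_append, m1]
            simp [mask, hM, m2]
      · have hvL : vL ≠ [] := by
          rintro rfl
          cases hL
          exact hLn rfl
        obtain ⟨vi, vo, rfl, g1, g2, g3⟩ := filter_split hvL hv'
        have key : ∀ x ∈ u ++ b, ∀ y ∈ vi.filter (fun x => decide (x < n)), y < x := by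
          intro x hx y hy
          rw [List.mem_filter] at hy
          obtain ⟨hy, hyn⟩ := hy
          simp only [decide_eq_true_eq] at hyn
          obtain ⟨y1, y2, rfl⟩ := List.append_of_mem hy
          obtain ⟨d, hd, hdn⟩ : ∃ d ∈ y2, n ≤ d := by
            obtain ⟨d, hd, hdn⟩ := g3 y1 (y :: y2) rfl (by simp)
            simp only [List.mem_cons] at hd
            rcases hd with hd | hd
            · omega
            · exact ⟨d, hd, hdn⟩
          have hdL : d ∈ vL := by
            rw [← g1, List.mem_filter]
            exact ⟨by simp [hd], by simpa using hdn⟩
          by_contra hcon
          have hne : x ≠ y := by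
            rintro rfl
            rw [List.nodup_append] at end'
            exact end'.2.2 x hx x (by simp) rfl
          have hxy : x < y := lt_of_le_of_ne (not_lt.mp hcon) hne
          refine hav x M y d ?_ ⟨hxy, lt_of_lt_of_le hyn hM, h1 d hdL⟩
          have e1 : List.Sublist [x] (u ++ b) := by simpa using hx
          have e2 : List.Sublist [d] y2 := by simpa using hd
          have e3 : List.Sublist ([x] ++ ([M] ++ ([y] ++ [d])))
              ((u ++ b) ++ ([M] ++ ((y1 ++ [y]) ++ y2))) := by
            apply e1.append
            apply (List.Sublist.refl [M]).append
            exact (List.sublist_append_right y1 [y]).append e2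
          have e4 : List.Sublist ([x] ++ ([M] ++ ([y] ++ [d])))
              (((u ++ b) ++ ([M] ++ ((y1 ++ [y]) ++ y2))) ++ vo) :=
            e3.trans (List.sublist_append_left _ _)
          simpa using e4
        obtain ⟨w2, s2, r2, q2, m2⟩ := ihL hLn vi [] [] ((R, s1) :: Z) (by rw [g1]; exact hL)
          g3 (by
            simp only [List.nil_append]
            exact eav.sublist (by
              rw [← List.append_assoc]
              exact (List.sublist_append_right (u ++ b) vi).trans (List.sublist_append_left _ _)))
          (by
            simp only [List.nil_append]
            exact end'.sublist (by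
              rw [← List.append_assoc]
              exact (List.sublist_append_right (u ++ b) vi).trans (List.sublist_append_left _ _)))
          (by simp) StackList.nil
        rw [List.nil_append] at q2
        have q3 : StackList (s2 ++ s1) ((u ++ b) ++ vi.filter (fun x => decide (x < n))) :=
          q2.append q1 key
        have hadv : adv L R s1 Z = (L, []) :: (R, s1) :: Z := by
          cases L with
          | nil => exact absurd rfl hLn
          | cons a b => rfl
        have r3 : Run ((Forest.cons L R, s) :: Z) (w1 ++ Letter.top :: w2)
            (close Z R (s2 ++ s1)) := by
          refine r1.trans (Run.top ?_)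
          rw [hadv]
          exact r2
        by_cases hRn : R = Forest.nil
        · subst hRn
          have hvR : vR = [] := by cases hR; rfl
          subst hvR
          have hvo : vo = [] := by
            by_contra hne
            obtain ⟨d, hd, hd'⟩ := ee.suffix [] vo rfl hne
            have : d ∈ vo.filter (fun x => decide (n ≤ x)) := by
              rw [List.mem_filter]; exact ⟨hd, by simpa using hd'⟩
            rw [g2] at this
            simp at this
          subst hvo
          refine ⟨_, _, r3, ?_, ?_⟩
          · rw [List.filter_append, filter_lt_eq hb]
            simp only [List.filter_cons, hMm']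
            simpa [List.append_assoc] using q3
          · rw [mask_append, m1]
            simp [mask, hM, m2]
        · have hcl : close Z R (s2 ++ s1) = (R, s2 ++ s1) :: Z := by
            cases R with
            | nil => exact absurd rfl hRn
            | cons a b => cases Z <;> rfl
          rw [hcl] at r3
          obtain ⟨w4, s4, r4, q4, m4⟩ := ihR hRn vo
            ((u ++ b) ++ vi.filter (fun x => decide (x < n))) (s2 ++ s1) Z
            (by rw [g2]; exact hR) ee.suffix
            (eav.sublist (by
              rw [List.append_assoc (u ++ b)]
              apply List.Sublist.append_left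
              apply List.Sublist.append_right
              exact List.filter_sublist))
            (end'.sublist (by
              rw [List.append_assoc (u ++ b)]
              apply List.Sublist.append_left
              apply List.Sublist.append_right
              exact List.filter_sublist))
            (by
              intro x hx
              rw [List.mem_append] at hx
              rcases hx with hx | hx
              · exact hub x hx
              · rw [List.mem_filter] at hx
                simpa using hx.2)
            q3
          refine ⟨_, _, r3.trans r4, ?_, ?_⟩
          · rw [List.filter_append, filter_lt_eq hb]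
            simp only [List.filter_cons, hMm']
            simpa [List.append_assoc] using q4
          · rw [mask_append, mask_append, m1]
            simp [mask, hM, m2, m4]

end H98Av
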