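import Pool.Agent.Lib.MP_b8e197_co.H98.Defs

namespace H98Av

open List

theorem Av1324.sublist {v w : List ℕ} (h : Av1324 v) (hw : w.Sublist v) : Av1324 w :=
  fun a b c d hs => h a b c d (hs.trans hw)

theorem Av132.sublist {v w : List ℕ} (h : Av132 v) (hw : w.Sublist v) : Av132 w :=
  fun a b c hs => h a b c (hs.trans hw)

theorem Av132.of_append {x : List ℕ} {d : ℕ} (h : Av1324 (x ++ [d])) (hx : ∀ y ∈ x, y < d) :
    Av132 x := by
  intro a b c hs hh
  have hb : b ∈ x := hs.subset (by simp)
  refine h a b c d ?_ ⟨hh.1, hh.2, hx b hb⟩
  have : [a, b, c, d] = [a, b, c] ++ [d] := rfl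
  rw [this]
  exact hs.append_right [d]

theorem StackList.forest {s : List Forest} {u : List ℕ} (h : StackList s u) :
    ∀ (acc : Forest) (w : List ℕ), ForestList acc w → (∀ x ∈ u, ∀ y ∈ w, y < x) →
      ForestList (mkAux acc s) (u ++ w) := by
  induction h with
  | nil => intro acc w hw _; simpa using hw
  | @cons f s u wf M hs hf h1 h2 h3 ih =>
    intro acc w hw hlt
    rw [mkAux_cons]
    have key : ForestList (Forest.cons f acc) (wf ++ M :: w) := by
      refine ForestList.cons hf hw h1 ?_ ?_
      · intro x hx y hy
        exact hlt x (by simp [hx]) y hy
      · intro y hy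
        exact hlt M (by simp) y hy
    have := ih (Forest.cons f acc) (wf ++ M :: w) key ?_
    · simpa using this
    · intro x hx y hy
      simp only [mem_append, mem_cons] at hy
      rcases hy with hy | hy | hy
      · exact h2 x hx y hy
      · rw [hy]; exact h3 x hx
      · exact hlt x (by simp [hx]) y hy

theorem StackList.mk {s : List Forest} {u : List ℕ} (h : StackList s u) :
    ForestList (H98Av.mk s) u := by
  have := h.forest Forest.nil [] ForestList.nil (by simp)
  rw [List.append_nil] at this
  exact this

theorem StackList.append {s : List Forest} {u : List ℕ} (h : StackList s u) :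
    ∀ {s' : List Forest} {u' : List ℕ}, StackList s' u' → (∀ x ∈ u', ∀ y ∈ u, y < x) →
      StackList (s ++ s') (u' ++ u) := by
  induction h with
  | nil => intro s' u' h' _; simpa using h'
  | @cons f s u wf M hs hf h1 h2 h3 ih =>
    intro s' u' h' hlt
    have h4 := ih h' (fun x hx y hy => hlt x hx y (by simp [hy]))
    have := StackList.cons (f := f) h4 hf h1 ?_ ?_
    · simpa using this
    · intro x hx y hy
      simp only [mem_append] at hx
      rcases hx with hx | hx
      · exact hlt x hx y (by simp [hy])
      · exact h2 x hx y hy
    · intro x hx
      simp only [mem_append] at hx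
      rcases hx with hx | hx
      · exact hlt x hx M (by simp)
      · exact h3 x hx

theorem StackList.eq_nil_of_nil {s : List Forest} (h : StackList s []) : s = [] := by
  generalize hu : ([] : List ℕ) = u at h
  cases h with
  | nil => rfl
  | cons => simp at hu

theorem StackList.ne_nil {s : List Forest} {u : List ℕ} (h : StackList s u) (hu : u ≠ []) :
    s ≠ [] := by
  rintro rfl
  cases h
  exact hu rfl

/-- Reading one more bottom point. -/
theorem StackList.split {s : List Forest} {u : List ℕ} (h : StackList s u) (q : ℕ) :
    ∀ (acc : Forest) (w : List ℕ), ForestList acc w → (∀ x ∈ u, ∀ y ∈ w, y < x) →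
      (∀ y ∈ w, y < q) → q ∉ u → Av132 (u ++ [q]) →
      ∃ j ≤ s.length, ∃ u1 u2 : List ℕ, u = u1 ++ u2 ∧ StackList (s.drop j) u1 ∧
        ForestList (mkAux acc (s.take j)) (u2 ++ w) ∧ (∀ x ∈ u1, q < x) ∧ (∀ x ∈ u2, x < q) ∧
        (∀ x ∈ u1, ∀ y ∈ u2, y < x) := by
  induction h with
  | nil =>
    intro acc w hw _ _ _ _
    exact ⟨0, le_rfl, [], [], rfl, StackList.nil, by simpa using hw, by simp, by simp, by simp⟩
  | @cons f s u wf M hs hf h1 h2 h3 ih =>
    intro acc w hw hlt hwq hq hav
    by_cases hM : q < M
    · refine ⟨0, Nat.zero_le _, u ++ (wf ++ [M]), [], by simp,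
        StackList.cons hs hf h1 h2 h3, by simpa using hw, ?_, by simp, by simp⟩
      intro x hx
      simp only [mem_append, mem_cons, not_mem_nil, or_false] at hx
      rcases hx with hx | hx | hx
      · exact hM.trans (h3 x hx)
      · by_contra hcon
        have hne : x ≠ q := by
          rintro rfl
          exact hq (by simp [hx])
        have hlt' : x < q := lt_of_le_of_ne (not_lt.mp hcon) hne
        refine hav x M q ?_ ⟨hlt', hM⟩
        have e1 : List.Sublist [x] wf := by simpa using hx
        have e2 : List.Sublist ([x] ++ [M]) (wf ++ [M]) := e1.append_right [M]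
        have e3 : List.Sublist (([x] ++ [M]) ++ [q]) ((u ++ (wf ++ [M])) ++ [q]) :=
          (e2.trans (List.sublist_append_right u _)).append_right [q]
        simpa using e3
      · rw [hx]; exact hM
    · have hne : M ≠ q := by
        rintro rfl
        exact hq (by simp)
      have hMq : M < q := lt_of_le_of_ne (not_lt.mp hM) hne
      have key : ForestList (Forest.cons f acc) (wf ++ M :: w) := by
        refine ForestList.cons hf hw h1 ?_ ?_
        · intro x hx y hy
          exact hlt x (by simp [hx]) y hy
        · intro y hy
          exact hlt M (by simp) y hy
      obtain ⟨j, hj, u1, u2, rfl, g1, g2, g3, g4, g5⟩ := ih (Forest.cons f acc) (wf ++ M :: w) key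
        (by
          intro x hx y hy
          simp only [mem_append, mem_cons] at hy
          rcases hy with hy | hy | hy
          · exact h2 x hx y hy
          · rw [hy]; exact h3 x hx
          · exact hlt x (by simp [hx]) y hy)
        (by
          intro y hy
          simp only [mem_append, mem_cons] at hy
          rcases hy with hy | hy | hy
          · exact (h1 y hy).trans hMq
          · rw [hy]; exact hMq
          · exact hwq y hy)
        (fun hh => hq (by simp [hh]))
        (hav.sublist (by
          apply List.Sublist.append_right
          exact List.sublist_append_left _ _))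
      refine ⟨j + 1, by simpa using hj, u1, u2 ++ (wf ++ [M]), by simp, by simpa using g1, ?_, g3,
        ?_, ?_⟩
      · simpa using g2
      · intro x hx
        simp only [mem_append, mem_cons, not_mem_nil, or_false] at hx
        rcases hx with hx | hx | hx
        · exact g4 x hx
        · exact (h1 x hx).trans hMq
        · rw [hx]; exact hMq
      · intro x hx y hy
        simp only [mem_append, mem_cons, not_mem_nil, or_false] at hy
        rcases hy with hy | hy | hy
        · exact g5 x hx y hy
        · exact h2 x (by simp [hx]) y hy
        · rw [hy]; exact h3 x (by simp [hx])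

theorem StackList.step {s : List Forest} {u : List ℕ} (h : StackList s u) (q : ℕ)
    (hq : q ∉ u) (hav : Av132 (u ++ [q])) :
    ∃ j ≤ s.length, StackList (H98Av.mk (s.take j) :: s.drop j) (u ++ [q]) := by
  obtain ⟨j, hj, u1, u2, rfl, g1, g2, g3, g4, g5⟩ :=
    h.split q Forest.nil [] ForestList.nil (by simp) (by simp) hq hav
  refine ⟨j, hj, ?_⟩
  rw [List.append_nil] at g2
  have := StackList.cons (f := H98Av.mk (s.take j)) g1 g2 g4 g5 g3
  simpa using this

/-- Top lists of the same multiset agree. -/
theorem TopList.length {t : Forest} {v : List ℕ} (h : TopList t v) : v.length = t.size := by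
  induction h with
  | nil => rfl
  | cons hL hR h1 h2 ihL ihR => simp [Forest.size, ihL, ihR]; omega

theorem TopList.countP {L : Forest} {vL vR : List ℕ} {M : ℕ} (hL : TopList L vL)
    (h1 : ∀ x ∈ vL, M < x) (h2 : ∀ x ∈ vR, x < M) :
    (M :: (vL ++ vR)).countP (fun x => decide (M < x)) = L.size := by
  rw [← hL.length]
  have e1 : vL.countP (fun x => decide (M < x)) = vL.length := by
    rw [List.countP_eq_length]
    intro x hx
    simpa using h1 x hx
  have e2 : vR.countP (fun x => decide (M < x)) = 0 := by
    rw [List.countP_eq_zero]
    intro x hx
    have := h2 x hx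
    simp only [decide_eq_true_eq, not_lt]
    omega
  simp [e1, e2]

theorem countP_lt_lt {v : List ℕ} {M M' : ℕ} (hM : M < M') (h : M' ∈ v) :
    v.countP (fun x => decide (M' < x)) < v.countP (fun x => decide (M < x)) := by
  induction v with
  | nil => simp at h
  | cons a v ih =>
    simp only [List.countP_cons]
    have hmono : v.countP (fun x => decide (M' < x)) ≤ v.countP (fun x => decide (M < x)) := by
      apply List.countP_mono_left
      intro x _ hx
      simp only [decide_eq_true_eq] at hx ⊢
      omega
    by_cases ha : a = M'
    · subst ha
      simp [hM]
      omega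
    · have h' : M' ∈ v := by
        simp only [List.mem_cons] at h
        rcases h with h | h
        · exact absurd h.symm ha
        · exact h
      have := ih h'
      by_cases h1 : M' < a
      · have h2 : M < a := hM.trans h1
        simp [h1, h2]
        omega
      · simp only [h1]
        simp
        omega

theorem TopList.unique {t : Forest} : ∀ {v v' : List ℕ}, TopList t v → TopList t v' →
    v.Perm v' → v = v' := by
  induction t with
  | nil =>
    intro v v' h h' _
    cases h; cases h'; rfl
  | cons L R ihL ihR =>
    intro v v' h h' hp
    cases h with
    | @cons _ _ vL vR M hL hR h1 h2 =>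
      cases h' with
      | @cons _ _ vL' vR' M' hL' hR' h1' h2' =>
        have c1 := TopList.countP hL h1 h2
        have c2 := TopList.countP hL' h1' h2'
        have hMM : M = M' := by
          rcases lt_trichotomy M M' with hlt | heq | hlt
          · have hm : M' ∈ (M :: (vL ++ vR)) := hp.mem_iff.mpr (by simp)
            have := countP_lt_lt hlt hm
            rw [c1, hp.countP_eq, c2] at this
            exact absurd this (lt_irrefl _)
          · exact heq
          · have hm : M ∈ (M' :: (vL' ++ vR')) := hp.mem_iff.mp (by simp)
            have := countP_lt_lt hlt hm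
            rw [c2, ← hp.countP_eq, c1] at this
            exact absurd this (lt_irrefl _)
        subst hMM
        have hp2 : (vL ++ vR).Perm (vL' ++ vR') := hp.cons_inv
        have f1 : (vL ++ vR).filter (fun x => decide (M < x)) = vL := by
          rw [List.filter_append]
          rw [List.filter_eq_self.mpr (by intro x hx; simpa using h1 x hx)]
          rw [List.filter_eq_nil_iff.mpr (by
            intro x hx
            have := h2 x hx
            simp only [decide_eq_true_eq, not_lt]; omega)]
          simp
        have f1' : (vL' ++ vR').filter (fun x => decide (M < x)) = vL' := by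
          rw [List.filter_append]
          rw [List.filter_eq_self.mpr (by intro x hx; simpa using h1' x hx)]
          rw [List.filter_eq_nil_iff.mpr (by
            intro x hx
            have := h2' x hx
            simp only [decide_eq_true_eq, not_lt]; omega)]
          simp
        have f2 : (vL ++ vR).filter (fun x => decide (x < M)) = vR := by
          rw [List.filter_append]
          rw [List.filter_eq_self (l := vR) |>.mpr (by intro x hx; simpa using h2 x hx)]
          rw [List.filter_eq_nil_iff.mpr (by
            intro x hx
            have := h1 x hx
            simp only [decide_eq_true_eq, not_lt]; omega)]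
          simp
        have f2' : (vL' ++ vR').filter (fun x => decide (x < M)) = vR' := by
          rw [List.filter_append]
          rw [List.filter_eq_self (l := vR') |>.mpr (by intro x hx; simpa using h2' x hx)]
          rw [List.filter_eq_nil_iff.mpr (by
            intro x hx
            have := h1' x hx
            simp only [decide_eq_true_eq, not_lt]; omega)]
          simp
        have pL : vL.Perm vL' := by
          have := hp2.filter (fun x => decide (M < x))
          rwa [f1, f1'] at this
        have pR : vR.Perm vR' := by
          have := hp2.filter (fun x => decide (x < M))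
          rwa [f2, f2'] at this
        rw [ihL hL hL' pL, ihR hR hR' pR]

end H98Av
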